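import Pool.Agent.Run7.h165.GI.Defs
import Pool.Agent.Run7.h165.CC.Upp2

/-! # Accessible points of the limits of interfaces in any domain -/

set_option autoImplicit false

namespace Run7.h165.GI

open H974 H973 H12S Finset H389NS H984P H984N H342P H342L H342T H443B
open MeasureTheory Filter Topology Pool.Agent.W92.DP Pool.Agent.W822.PD Pool.Agent.W462.DPL
open Pool.Agent.W978.PDUL Pool.Agent.TH990.FU Run7.h165.EC Run7.h165.CC
open Pool.Agent.W424.OD Pool.Agent.W571.DPad TopologicalSpace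
open Run7.h561.CC (Seq lawE)
open scoped ENNReal NNReal

theorem full_inv (G : Set Edg) (σ τ : St) : τ ∈ Full G σ ↔ nxt G τ ∈ Full G σ := by
  have hinj := (nxt_bij G).1
  have hsh : ∀ τ t, orb G τ (t + 1) = orb G (nxt G τ) t := fun τ t => by
    rw [orb_add]
    rfl
  constructor
  · rintro ⟨t, rfl | h⟩
    · exact ⟨t + 1, Or.inl (orb_succ _ _ _)⟩
    · rcases t with _ | t
      · refine ⟨1, Or.inl ?_⟩
        rw [orb_succ, ← h]
        rfl
      · refine ⟨t, Or.inr ?_⟩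
        rw [← hsh]
        exact h
  · rintro ⟨t, ht | h⟩
    · rcases t with _ | t
      · refine ⟨1, Or.inr ?_⟩
        rw [orb_succ]
        exact ht.symm
      · refine ⟨t, Or.inl (hinj ?_)⟩
        rw [← orb_succ, ht]
    · refine ⟨t + 1, Or.inr ?_⟩
      rw [hsh]
      exact h

theorem zp_step {δ : ℝ} (hδ : 0 < δ) (o : ℂ) (G : Set Edg) (σ : St) (j : ℕ) :
    dist (zp δ o (orb G σ j).1) (zp δ o (orb G σ (j + 1)).1) ≤ δ := by
  have h := pt_step' one_pos G σ j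
  rw [← lc_zp hδ o, ← lc_zp hδ o, lc_dist hδ, div_le_iff₀ hδ] at h
  simpa using h

theorem poly_node (f : ℕ → ℂ) {N : ℕ} (hN : 0 < N) {k : ℕ} (hk : k < N) :
    ∃ s : unitInterval, poly f N s = f k ∧ (s : ℝ) * N = k := by
  have hN' : (0 : ℝ) < N := by exact_mod_cast hN
  have hmem : (k : ℝ) / N ∈ unitInterval := by
    constructor
    · positivity
    · rw [div_le_one hN']
      exact_mod_cast hk.le
  have h5 := POL_formula f N k hk ⟨(k : ℝ) / N, hmem⟩
    (by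
      show (k : ℝ) ≤ N * ((k : ℝ) / N)
      rw [mul_div_cancel₀ _ hN'.ne'])
    (by
      show N * ((k : ℝ) / N) ≤ k + 1
      rw [mul_div_cancel₀ _ hN'.ne']
      linarith)
  refine ⟨⟨(k : ℝ) / N, hmem⟩, ?_, ?_⟩
  · rw [h5]
    have h6 : ((N : ℝ) * ((k : ℝ) / N) - k : ℝ) = 0 := by
      rw [mul_div_cancel₀ _ hN'.ne']
      ring
    show f k + (((N : ℝ) * ((k : ℝ) / N) - k : ℝ) : ℂ) * _ = _
    rw [h6, Complex.ofReal_zero, zero_mul, add_zero]
  · show (k : ℝ) / N * N = k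
    rw [div_mul_cancel₀ _ hN'.ne']

/-- the deterministic part -/
theorem detI {δ : ℝ} (hδ : 0 < δ) {o z : ℂ} {r d ζ : ℝ} (hδr : δ ≤ r) (hd : 256 * r ≤ d)
    (hζ : 8 * δ ≤ ζ) {G : Set Edg} {c : Curve}
    (hT : IsItf δ o G (Metric.closedBall z (3 / 4 * d)) c) (hE : c.path ∈ Ev3 z r (d / 2) ζ) :
    A3v (vz δ o z) (⌈r / δ⌉₊ + 3 + 2) (⌊d / (8 * δ)⌋₊ - 2) G ∨
      A3v (vz δ o z) (⌈r / δ⌉₊ + 3 + 2) (⌊d / (8 * δ)⌋₊ - 2) (dl '' Gᶜ) := by
  obtain ⟨⟨s, hs⟩, ⟨s', hs'⟩, g, hg0, hg1, hg⟩ := hE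
  obtain ⟨σ, N, hN, -, hpath, hfull⟩ := hT
  have hr : 0 < r := hδ.trans_le hδr
  have hd0 : 0 < d := by linarith
  have hst : ∀ k < N, dist (zp δ o (orb G σ k).1) (zp δ o (orb G σ (k + 1)).1) ≤ δ :=
    fun k _ => zp_step hδ o G σ k
  obtain ⟨i, hiN, -, hi⟩ := poly_close hN hst s
  obtain ⟨j, hjN, -, hj⟩ := poly_close hN hst s'
  rw [← hpath] at hi hj
  obtain ⟨g', a1, a2, a3, a4⟩ := cut g (z := z) (ρ := d / 2) (by linarith) hg1.le
  refine det_gen (o := o) hδ hδr hd (C := G) (A := Full G σ) (full_inv G σ) hs hs' (g := g')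
    (by rw [a1]; exact hg0) a2.ge ?_ (σ := orb G σ i) (τ := orb G σ j) ⟨i, Or.inl rfl⟩
    (by linarith) (by linarith) ?_ ?_
  · intro t u hu q hq
    have h4 := hu.dist hδ
    have h5 := a3 t
    obtain ⟨k, hk, he⟩ := hfull _ hq (by
      show dist (zp δ o u) z ≤ 3 / 4 * d
      have := dist_triangle_left (zp δ o u) z (g' t)
      linarith)
    obtain ⟨x, hx, -⟩ := poly_node (fun j => zp δ o (orb G σ j).1) hN hk
    rw [← hpath] at hx
    simp only [he] at hx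
    obtain ⟨t', ht'⟩ := a4 t
    have h7 := hg x t'
    rw [hx, ← ht'] at h7
    linarith
  · exact (pb_reach _ _ _).symm.trans (pb_reach _ _ _)
  · have h1 := (reach_dl (F := Gᶜ)).2 (pb_dreach G σ i)
    have h2 := (reach_dl (F := Gᶜ)).2 (pb_dreach G σ j)
    exact h1.symm.trans h2

/-- three arms of the configuration, in terms of the sampled edges -/
theorem prob3 (hU : U3) : ∃ C : ℝ, 0 ≤ C ∧ ∀ (δ : ℝ) (o z : ℂ) (r d : ℝ) (E : Finset Edg)
    (G : Finset Edg → Set Edg) (P : Finset Edg → Prop), 0 < δ → 0 < r → 0 < d →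
      (∀ e : Edg, zp δ o (src e) ∈ Metric.closedBall z (d / 2) →
        zp δ o (tgt e) ∈ Metric.closedBall z (d / 2) → e ∈ E ∧ ∀ F ⊆ E, (e ∈ G F ↔ e ∈ F)) →
      (∀ F ⊆ E, P F → 256 * r ≤ d →
        A3v (vz δ o z) (⌈r / δ⌉₊ + 3 + 2) (⌊d / (8 * δ)⌋₊ - 2) (G F) ∨
        A3v (vz δ o z) (⌈r / δ⌉₊ + 3 + 2) (⌊d / (8 * δ)⌋₊ - 2) (dl '' (G F)ᶜ)) →
      δ ≤ r → PQ (1/2) E P ≤ C * (r / d) ^ (2/3 : ℝ) := by
  obtain ⟨Cd, hCd, hD'⟩ := u3d hU
  obtain ⟨Ca, hCa, hA'⟩ := hU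
  refine ⟨(Ca + Cd + 1) * 256 ^ (2/3 : ℝ), by positivity, ?_⟩
  intro δ o z r d S G P hδ hr hd0 hagr hX hδr
  have hq : 0 < r / d := by positivity
  have hRHS : (Ca + Cd + 1) * 256 ^ (2/3 : ℝ) * (r / d) ^ (2/3 : ℝ) =
      (Ca + Cd + 1) * (256 * (r / d)) ^ (2/3 : ℝ) := by
    rw [Real.mul_rpow (by norm_num) hq.le]
    ring
  rw [hRHS]
  by_cases h256 : 256 * r ≤ d
  · obtain ⟨s1, s2, s3, s4⟩ := sizes hδ hδr h256
    set m : ℕ := ⌊d / (8 * δ)⌋₊ - 2 with hm
    have hgeo : ∀ e ∈ H12S.blk (vz δ o z) (m + 1),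
        zp δ o (src e) ∈ Metric.closedBall z (d / 2) ∧
          zp δ o (tgt e) ∈ Metric.closedBall z (d / 2) := by
      have hk : ((m + 1 : ℕ) : ℝ) ≤ d / (8 * δ) := by
        have h6 : (⌊d / (8 * δ)⌋₊ : ℝ) ≤ d / (8 * δ) := Nat.floor_le (by positivity)
        have h7 : ((m + 1 : ℕ) : ℝ) ≤ (⌊d / (8 * δ)⌋₊ : ℝ) := by
          have : m + 1 ≤ ⌊d / (8 * δ)⌋₊ := by omega
          exact_mod_cast this
        linarith
      have h6 : 2 * δ * ((m + 1 : ℕ) : ℝ) ≤ d / 4 := by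
        calc 2 * δ * ((m + 1 : ℕ) : ℝ) ≤ 2 * δ * (d / (8 * δ)) :=
              mul_le_mul_of_nonneg_left hk (by positivity)
          _ = d / 4 := by
              field_simp
              norm_num
      have key : ∀ w : Vtx, Pool.Agent.W424.OD.BX (vz δ o z) (m + 1) w →
          dist (zp δ o w) z ≤ d / 2 := by
        intro w hw
        have h8 := of_box hδ hw
        have h9 : (256:ℝ) * δ ≤ d := by
          have := mul_le_mul_of_nonneg_left hδr (by norm_num : (0:ℝ) ≤ 256)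
          linarith
        refine h8.trans ?_
        linarith
      intro e he
      obtain ⟨h1, h2⟩ := blk_mem he
      exact ⟨key _ h1, key _ h2⟩
    have hblkS : H12S.blk (vz δ o z) (m + 1) ⊆ S := by
      intro e he
      obtain ⟨h1, h2⟩ := hgeo e he
      exact (hagr e h1 h2).1
    have h1 := hA' (vz δ o z) (⌈r / δ⌉₊ + 3 + 2) m (by omega) s2 S
      ((blk_mono1 m).trans hblkS)
    have h2 := hD' (vz δ o z) (⌈r / δ⌉₊ + 3 + 2) m (by omega) s2 S hblkS
    have hmono : PQ (1/2) S P ≤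
        PQ (1/2) S (fun F =>
          A3v (vz δ o z) (⌈r / δ⌉₊ + 3 + 2) m ↑F ∨
          A3v (vz δ o z) (⌈r / δ⌉₊ + 3 + 2) m (dl '' (↑F : Set Edg)ᶜ)) := by
      refine Pr_mono okh ?_
      intro F hF hE
      have hcong : ∀ e ∈ H12S.blk (vz δ o z) (m + 1), (e ∈ G F ↔ e ∈ (↑F : Set Edg)) := by
        intro e he
        obtain ⟨h1, h2⟩ := hgeo e he
        rw [Finset.mem_coe]
        exact (hagr e h1 h2).2 F hF
      rcases hX F hF hE h256 with h | h
      · exact Or.inl ((A3v_congr' hcong).1 h)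
      · exact Or.inr ((A3v_congr_dual hcong).1 h)
    have hor := Pr_or_le okh S
      (fun F => A3v (vz δ o z) (⌈r / δ⌉₊ + 3 + 2) m ↑F)
      (fun F => A3v (vz δ o z) (⌈r / δ⌉₊ + 3 + 2) m (dl '' (↑F : Set Edg)ᶜ))
    have hpow : (((⌈r / δ⌉₊ + 3 + 2 : ℕ) : ℝ) / (m : ℝ)) ^ (2/3 : ℝ) ≤
        (256 * (r / d)) ^ (2/3 : ℝ) :=
      Real.rpow_le_rpow (by positivity) s4 (by norm_num)
    have hx0 : 0 ≤ (256 * (r / d)) ^ (2/3 : ℝ) := by positivity
    have h3 := mul_le_mul_of_nonneg_left hpow hCa.le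
    have h4 := mul_le_mul_of_nonneg_left hpow hCd.le
    have h5 := hmono.trans (hor.trans (add_le_add (h1.trans h3) (h2.trans h4)))
    refine h5.trans ?_
    nlinarith
  · push Not at h256
    have h1 : PQ (1/2) S P ≤ 1 := Pr_le_one okh _ _
    refine h1.trans ?_
    have h2 : 1 ≤ 256 * (r / d) := by
      rw [← mul_div_assoc, le_div_iff₀ hd0]
      linarith
    have h3 : 1 ≤ (256 * (r / d)) ^ (2/3 : ℝ) := Real.one_le_rpow h2 (by norm_num)
    nlinarith

/-- **accessible points** -/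
theorem t_ACC (hU : U3) {s : Seq} {D : Set ℂ} (hD : IsOpen D) (hag : s.Agree D)
    {γ : ℕ → Finset Edg → Curve} (hγ : Itf s D γ) {μ : ProbabilityMeasure Curve}
    (hμ : Tendsto (law s γ) atTop (𝓝 μ)) (A : Set ℂ) :
    ∀ᵐ c : Curve ∂(μ : Measure Curve),
      dimH ((⋃ i : ℕ, Acc (1 / ((i : ℝ) + 1)) c.path) ∩ A ∩ D) ≤
        dimH A - ENNReal.ofReal (2/3) := by
  obtain ⟨C, hC, hP⟩ := prob3 hU
  have hO : ∀ z r ρ, IsOpen (Curve.path ⁻¹' E3U z r ρ) := by
    intro z r ρ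
    unfold E3U
    rw [Set.preimage_iUnion]
    exact isOpen_iUnion fun j => preL_open _ _ _ _
  have key := fixed_dim (E := fun d z r => Curve.path ⁻¹' E3U z r (d / 2))
    (fun d z r => (hO _ _ _).measurableSet)
    (S := fun η c => Acc η c.path) ?_ hD hC (s := 2/3) (by norm_num)
    (μ := (μ : Measure Curve)) ?_ A
  · filter_upwards [key] with c hc
    exact hc.1
  · intro η d z r w c hdη hrd hw hwz
    exact E3U_of hw hwz (by linarith)
  · intro z r d hr hrd hball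
    have hd0 : 0 < d := hr.trans_le hrd
    have hmono : Monotone (fun j : ℕ => Curve.path ⁻¹' Ev3 z r (d / 2) (1 / ((j:ℝ) + 1))) :=
      fun i j hij c hc => Ev3_anti (Nat.one_div_le_one_div hij) hc
    have h : Curve.path ⁻¹' E3U z r (d / 2) =
        ⋃ j : ℕ, Curve.path ⁻¹' Ev3 z r (d / 2) (1 / ((j:ℝ) + 1)) := by
      unfold E3U
      rw [Set.preimage_iUnion]
    rw [h, hmono.measure_iUnion]
    refine iSup_le fun j => ?_
    refine (ProbabilityMeasure.le_liminf_measure_open_of_tendsto hμ (preL_open _ _ _ _)).trans ?_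
    refine liminf_le_of_frequently_le (Eventually.frequently ?_)
    have hpos : 0 < min r (1 / ((j:ℝ) + 1) / 8) := lt_min hr (by positivity)
    have hb1 : Metric.closedBall z (d / 2) ⊆ D :=
      (Metric.closedBall_subset_ball (by linarith)).trans hball
    have hb2 : Metric.closedBall z (3 / 4 * d) ⊆ D :=
      (Metric.closedBall_subset_ball (by linarith)).trans hball
    filter_upwards [s.lim.eventually (gt_mem_nhds hpos), hag _ hb1 (isCompact_closedBall _ _),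
      hγ _ hb2 (isCompact_closedBall _ _)] with n hn hn2 hn3
    have k1 := hn.le.trans (min_le_left _ _)
    have k2 := hn.le.trans (min_le_right _ _)
    have hlaw : ((law s γ n : ProbabilityMeasure Curve) : Measure Curve)
        (Curve.path ⁻¹' Ev3 z r (d / 2) (1 / ((j:ℝ) + 1))) = _ :=
      Run7.h561.CC.lawE_apply (s.E n) (γ n) (preL_open z r (d / 2) _).measurableSet
    rw [hlaw]
    apply ENNReal.ofReal_le_ofReal
    refine hP (s.δ n) (s.o n) z r d (s.E n) (s.G n) _ (s.pos n) hr hd0 hn2 ?_ k1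
    intro F hF hE h256
    exact detI (s.pos n) k1 h256 (by linarith) (hn3 F hF) hE

end Run7.h165.GI
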