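import Pool.Agent.Run7.h165.GI.Acc
import Pool.Agent.Run7.h165.EC.Dbll

/-! # Double points of the limits of interfaces in any domain -/

set_option autoImplicit false

namespace Run7.h165.GI

open H974 H973 H12S Finset H389NS H984P H984N H342P H342L H342T H443B
open MeasureTheory Filter Topology Pool.Agent.W92.DP Pool.Agent.W822.PD Pool.Agent.W462.DPL
open Pool.Agent.W978.PDUL Pool.Agent.TH990.FU Run7.h165.EC Run7.h165.CC
open Pool.Agent.W424.OD Pool.Agent.W571.DPad TopologicalSpace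
open Run7.h561.CC (Seq lawE)
open scoped ENNReal NNReal

theorem A4a_congr {c : ℤ × ℤ} {d k : ℕ} {F G : Set Edg}
    (h : F ∩ ↑(H12S.blk c k) = G ∩ ↑(H12S.blk c k)) : A4a c d k F ↔ A4a c d k G := by
  have e : F ∩ ↑(H12S.blk c k \ H12S.blk c d) = G ∩ ↑(H12S.blk c k \ H12S.blk c d) := by
    have e' : ∀ H : Set Edg, H ∩ ↑(H12S.blk c k \ H12S.blk c d) =
        (H ∩ ↑(H12S.blk c k)) ∩ (↑(H12S.blk c d) : Set Edg)ᶜ := by
      intro H
      ext x
      simp only [Set.mem_inter_iff, Finset.coe_sdiff, Set.mem_sdiff, Set.mem_compl_iff]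
      tauto
    rw [e' F, e' G, h]
  unfold A4a
  rw [e]

theorem A4a_congr' {c : ℤ × ℤ} {d k : ℕ} {F G : Set Edg}
    (h : ∀ e ∈ H12S.blk c (k + 1), (e ∈ F ↔ e ∈ G)) : A4a c d k F ↔ A4a c d k G := by
  apply A4a_congr
  ext e
  simp only [Set.mem_inter_iff, Finset.mem_coe]
  constructor
  · rintro ⟨h1, h2⟩
    exact ⟨(h e (blk_mono1 k h2)).1 h1, h2⟩
  · rintro ⟨h1, h2⟩
    exact ⟨(h e (blk_mono1 k h2)).2 h1, h2⟩

theorem A4d_congr' {c : ℤ × ℤ} {d k : ℕ} {F G : Set Edg}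
    (h : ∀ e ∈ H12S.blk c (k + 1), (e ∈ F ↔ e ∈ G)) : A4d c d k F ↔ A4d c d k G := by
  unfold A4d
  apply A4a_congr
  ext e
  simp only [Set.mem_inter_iff, Finset.mem_coe, Set.mem_image, Set.mem_compl_iff]
  constructor
  · rintro ⟨⟨g, hg, rfl⟩, he⟩
    have := dls_mem he
    rw [Equiv.symm_apply_apply] at this
    exact ⟨⟨g, fun hc => hg ((h g this).2 hc), rfl⟩, he⟩
  · rintro ⟨⟨g, hg, rfl⟩, he⟩
    have := dls_mem he
    rw [Equiv.symm_apply_apply] at this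
    exact ⟨⟨g, fun hc => hg ((h g this).1 hc), rfl⟩, he⟩

theorem orb_trunc {G G' : Set Edg} {σ : St} {N : ℕ}
    (h : ∀ j < N, (ae (orb G σ j) ∈ G' ↔ ae (orb G σ j) ∈ G)) :
    ∀ j ≤ N, orb G' σ j = orb G σ j := by
  intro j
  induction j with
  | zero => intro _; rfl
  | succ j ih =>
    intro hj
    rw [orb_succ, orb_succ, ih (by omega)]
    have h1 := h j (by omega)
    by_cases hg : ae (orb G σ j) ∈ G
    · rw [nxt_open hg, nxt_open (h1.2 hg)]
    · rw [nxt_closed hg, nxt_closed (fun h' => hg (h1.1 h'))]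

/-- the deterministic part -/
theorem detD (hU : PD_UO) {δ : ℝ} (hδ : 0 < δ) {o z : ℂ} {r d : ℝ} (hδr : δ ≤ r)
    (hd : 256 * r ≤ d) {G : Set Edg} {c : Curve} {σ : St} {N : ℕ} (hN : 0 < N)
    (hdis : ∀ i j, i < j → j < N → orb G σ i ≠ orb G σ j)
    (hpath : c.path = poly (fun j => zp δ o (orb G σ j).1) N) (hE : c ∈ Pool.Agent.W822.PD.EvC z r (d / 2)) :
    A4a (vz δ o z) (⌈r / δ⌉₊ + 3 + 2) (⌊d / (8 * δ)⌋₊ - 2) G ∨
      A4d (vz δ o z) (⌈r / δ⌉₊ + 3 + 2) (⌊d / (8 * δ)⌋₊ - 2) G := by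
  classical
  obtain ⟨s, t, hst, h1, h2, ⟨u, ⟨hsu, hut⟩, h3⟩, w, hw, h4⟩ := hE
  have hr : 0 < r := hδ.trans_le hδr
  have hd0 : 0 < d := by linarith
  rw [hpath] at h1 h2 h3 h4
  have hst' : ∀ k < N, dist (zp δ o (orb G σ k).1) (zp δ o (orb G σ (k + 1)).1) ≤ δ :=
    fun k _ => zp_step hδ o G σ k
  obtain ⟨i, hiN, ⟨i1, i2⟩, hi⟩ := poly_close hN hst' s
  obtain ⟨j, hjN, ⟨j1, j2⟩, hj⟩ := poly_close hN hst' u
  obtain ⟨l, hlN, ⟨l1, l2⟩, hl⟩ := poly_close hN hst' t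
  obtain ⟨j', hjN', ⟨j1', j2'⟩, hj'⟩ := poly_close hN hst' w
  set f := poly (fun j => zp δ o (orb G σ j).1) N with hf
  have hsu' : s ≠ u := by
    intro h
    rw [h] at h1
    linarith
  have hut' : u ≠ t := by
    intro h
    rw [← h] at h2
    linarith
  have hsw' : w ≠ s := by
    intro h
    rw [← h] at h1
    linarith
  have htw' : t ≠ w := by
    intro h
    rw [h] at h2
    linarith
  have hij : i ≤ j := idx_le hN hsu hsu' i1 j2
  have hjl : j ≤ l := idx_le hN hut hut' j1 l2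
  -- positions
  have pi : dist (zp δ o (orb G σ i).1) z ≤ r + δ := by
    have := dist_triangle_left (zp δ o (orb G σ i).1) z (f s)
    linarith
  have plz : dist (zp δ o (orb G σ l).1) z ≤ r + δ := by
    have := dist_triangle_left (zp δ o (orb G σ l).1) z (f t)
    linarith
  have pj : d / 2 - δ < dist (zp δ o (orb G σ j).1) z := by
    have := dist_triangle (f u) (zp δ o (orb G σ j).1) z
    linarith
  have pj' : d / 2 - δ < dist (zp δ o (orb G σ j').1) z := by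
    have := dist_triangle (f w) (zp δ o (orb G σ j').1) z
    linarith
  have hij' : i < j := by
    rcases hij.lt_or_eq with h | h
    · exact h
    · exfalso
      rw [h] at pi
      linarith
  have hjl' : j < l := by
    rcases hjl.lt_or_eq with h | h
    · exact h
    · exfalso
      rw [← h] at plz
      linarith
  have hout : j' < i ∨ l < j' := by
    rcases hw with hw | hw
    · left
      have h5 : j' ≤ i := idx_le hN hw hsw' j1' i2
      rcases h5.lt_or_eq with h | h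
      · exact h
      · exfalso
        rw [← h] at pi
        linarith
    · right
      have h5 : l ≤ j' := idx_le hN hw htw' l1 j2'
      rcases h5.lt_or_eq with h | h
      · exact h
      · exfalso
        rw [h] at plz
        linarith
  obtain ⟨s1, _, _, _⟩ := sizes hδ hδr hd
  -- truncation
  set k : ℕ := ⌊d / (8 * δ)⌋₊ - 2 with hk
  set G' : Finset Edg := ((Finset.range N).image (fun j => ae (orb G σ j)) ∪
    H12S.blk (vz δ o z) (k + 1)).filter (fun e => e ∈ G) with hG'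
  have hcong : ∀ e ∈ H12S.blk (vz δ o z) (k + 1), (e ∈ (↑G' : Set Edg) ↔ e ∈ G) := by
    intro e he
    rw [Finset.mem_coe, hG', Finset.mem_filter]
    exact ⟨fun h => h.2, fun h => ⟨Finset.mem_union_right _ he, h⟩⟩
  have horb : ∀ j ≤ N, orb (↑G') σ j = orb G σ j := by
    apply orb_trunc
    intro j hj
    rw [Finset.mem_coe, hG', Finset.mem_filter]
    exact ⟨fun h => h.2, fun h => ⟨Finset.mem_union_left _
      (Finset.mem_image_of_mem _ (Finset.mem_range.2 hj)), h⟩⟩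
  have hper := P17.periodic G' σ
  obtain ⟨hP0, hPper⟩ := Nat.find_spec hper
  have hPmin : ∀ j, 0 < j → j < Nat.find hper → orb (↑G') σ j ≠ σ :=
    fun j hj hjN he => Nat.find_min hper hjN ⟨hj, he⟩
  have hNP : N ≤ Nat.find hper := by
    by_contra hcon
    push Not at hcon
    have h5 := horb (Nat.find hper) hcon.le
    rw [hPper] at h5
    exact hdis 0 (Nat.find hper) hP0 hcon h5
  have hnear : ∀ x : ℕ, x ≤ N → dist (zp δ o (orb G σ x).1) z ≤ r + δ →
      inR ((vz δ o z).1 - (⌈r / δ⌉₊ + 3 : ℕ)) ((vz δ o z).1 + (⌈r / δ⌉₊ + 3 : ℕ))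
        ((vz δ o z).2 - (⌈r / δ⌉₊ + 3 : ℕ)) ((vz δ o z).2 + (⌈r / δ⌉₊ + 3 : ℕ))
        (orb (↑G') σ x).1 := by
    intro x hxN hx
    rw [horb x hxN]
    exact box_of hδ (by linarith)
  have hfar : ∀ x : ℕ, x ≤ N → d / 2 - δ < dist (zp δ o (orb G σ x).1) z →
      ¬ inR ((vz δ o z).1 - (⌊d / (8 * δ)⌋₊ : ℕ)) ((vz δ o z).1 + (⌊d / (8 * δ)⌋₊ : ℕ))
        ((vz δ o z).2 - (⌊d / (8 * δ)⌋₊ : ℕ)) ((vz δ o z).2 + (⌊d / (8 * δ)⌋₊ : ℕ))
        (orb (↑G') σ x).1 := by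
    intro x hxN hx hin
    rw [horb x hxN] at hin
    have h5 := of_box (o := o) (z := z) hδ (k := ⌊d / (8 * δ)⌋₊) (w := (orb G σ x).1) hin
    have hk' : (⌊d / (8 * δ)⌋₊ : ℝ) ≤ d / (8 * δ) := Nat.floor_le (by positivity)
    have h6 : 2 * δ * (⌊d / (8 * δ)⌋₊ : ℝ) ≤ d / 4 := by
      calc 2 * δ * (⌊d / (8 * δ)⌋₊ : ℝ) ≤ 2 * δ * (d / (8 * δ)) :=
            mul_le_mul_of_nonneg_left hk' (by positivity)
        _ = d / 4 := by
            field_simp
            norm_num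
    linarith
  have hmain := hU G' σ (Nat.find hper) hP0 hPper hPmin (vz δ o z) (⌈r / δ⌉₊ + 3)
    ⌊d / (8 * δ)⌋₊ s1 i j l j' hij' hjl' (hlN.le.trans hNP) hout (hjN'.le.trans hNP)
    (hnear i hiN.le pi) (hnear l hlN.le plz) (hfar j hjN.le pj) (hfar j' hjN'.le pj')
  rcases hmain with h | h
  · exact Or.inl ((A4a_congr' hcong).1 h)
  · exact Or.inr ((A4d_congr' hcong).1 h)

/-- four arms of the configuration, in terms of the sampled edges -/
theorem prob4 (hA : St_Aa) (hD : St_Ad) : ∃ C : ℝ, 0 ≤ C ∧ ∀ (δ : ℝ) (o z : ℂ) (r d : ℝ)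
    (E : Finset Edg) (G : Finset Edg → Set Edg) (P : Finset Edg → Prop), 0 < δ → 0 < r → 0 < d →
      (∀ e : Edg, zp δ o (src e) ∈ Metric.closedBall z (d / 2) →
        zp δ o (tgt e) ∈ Metric.closedBall z (d / 2) → e ∈ E ∧ ∀ F ⊆ E, (e ∈ G F ↔ e ∈ F)) →
      (∀ F ⊆ E, P F → 256 * r ≤ d →
        A4a (vz δ o z) (⌈r / δ⌉₊ + 3 + 2) (⌊d / (8 * δ)⌋₊ - 2) (G F) ∨
        A4d (vz δ o z) (⌈r / δ⌉₊ + 3 + 2) (⌊d / (8 * δ)⌋₊ - 2) (G F)) →
      δ ≤ r → PQ (1/2) E P ≤ C * (r / d) ^ (5/4 : ℝ) := by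
  obtain ⟨Ca, hCa, hA'⟩ := hA
  obtain ⟨Cd, hCd, hD'⟩ := hD
  refine ⟨(Ca + Cd + 1) * 256 ^ (5/4 : ℝ), by positivity, ?_⟩
  intro δ o z r d S G P hδ hr hd0 hagr hX hδr
  have hq : 0 < r / d := by positivity
  have hRHS : (Ca + Cd + 1) * 256 ^ (5/4 : ℝ) * (r / d) ^ (5/4 : ℝ) =
      (Ca + Cd + 1) * (256 * (r / d)) ^ (5/4 : ℝ) := by
    rw [Real.mul_rpow (by norm_num) hq.le]
    ring
  rw [hRHS]
  by_cases h256 : 256 * r ≤ d
  · obtain ⟨s1, s2, s3, s4⟩ := sizes hδ hδr h256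
    set m : ℕ := ⌊d / (8 * δ)⌋₊ - 2 with hm
    have hgeo : ∀ e ∈ H12S.blk (vz δ o z) (m + 1),
        zp δ o (src e) ∈ Metric.closedBall z (d / 2) ∧
          zp δ o (tgt e) ∈ Metric.closedBall z (d / 2) := by
      have hk : ((m + 1 : ℕ) : ℝ) ≤ d / (8 * δ) := by
        have h6 : (⌊d / (8 * δ)⌋₊ : ℝ) ≤ d / (8 * δ) := Nat.floor_le (by positivity)
        have h7 : ((m + 1 : ℕ) : ℝ) ≤ (⌊d / (8 * δ)⌋₊ : ℝ) := by
          have : m + 1 ≤ ⌊d / (8 * δ)⌋₊ := by omega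
          exact_mod_cast this
        linarith
      have h6 : 2 * δ * ((m + 1 : ℕ) : ℝ) ≤ d / 4 := by
        calc 2 * δ * ((m + 1 : ℕ) : ℝ) ≤ 2 * δ * (d / (8 * δ)) :=
              mul_le_mul_of_nonneg_left hk (by positivity)
          _ = d / 4 := by
              field_simp
              norm_num
      have key : ∀ w : Vtx, Pool.Agent.W424.OD.BX (vz δ o z) (m + 1) w →
          dist (zp δ o w) z ≤ d / 2 := by
        intro w hw
        have h8 := of_box hδ hw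
        have h9 : (256:ℝ) * δ ≤ d := by
          have := mul_le_mul_of_nonneg_left hδr (by norm_num : (0:ℝ) ≤ 256)
          linarith
        refine h8.trans ?_
        linarith
      intro e he
      obtain ⟨h1, h2⟩ := blk_mem he
      exact ⟨key _ h1, key _ h2⟩
    have hblkS : H12S.blk (vz δ o z) (m + 1) ⊆ S := by
      intro e he
      obtain ⟨h1, h2⟩ := hgeo e he
      exact (hagr e h1 h2).1
    have h1 := hA' (vz δ o z) (⌈r / δ⌉₊ + 3 + 2) m (by omega) s2 S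
      ((blk_mono1 m).trans hblkS)
    have h2 := hD' (vz δ o z) (⌈r / δ⌉₊ + 3 + 2) m (by omega) s2 S hblkS
    have hmono : PQ (1/2) S P ≤
        PQ (1/2) S (fun F =>
          A4a (vz δ o z) (⌈r / δ⌉₊ + 3 + 2) m ↑F ∨
          A4d (vz δ o z) (⌈r / δ⌉₊ + 3 + 2) m ↑F) := by
      refine Pr_mono okh ?_
      intro F hF hE
      have hcong : ∀ e ∈ H12S.blk (vz δ o z) (m + 1), (e ∈ G F ↔ e ∈ (↑F : Set Edg)) := by
        intro e he
        obtain ⟨h1, h2⟩ := hgeo e he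
        rw [Finset.mem_coe]
        exact (hagr e h1 h2).2 F hF
      rcases hX F hF hE h256 with h | h
      · exact Or.inl ((A4a_congr' hcong).1 h)
      · exact Or.inr ((A4d_congr' hcong).1 h)
    have hor := Pr_or_le okh S
      (fun F => A4a (vz δ o z) (⌈r / δ⌉₊ + 3 + 2) m ↑F)
      (fun F => A4d (vz δ o z) (⌈r / δ⌉₊ + 3 + 2) m ↑F)
    have hpow : (((⌈r / δ⌉₊ + 3 + 2 : ℕ) : ℝ) / (m : ℝ)) ^ (5/4 : ℝ) ≤
        (256 * (r / d)) ^ (5/4 : ℝ) :=
      Real.rpow_le_rpow (by positivity) s4 (by norm_num)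
    have hx0 : 0 ≤ (256 * (r / d)) ^ (5/4 : ℝ) := by positivity
    have h3 := mul_le_mul_of_nonneg_left hpow hCa.le
    have h4 := mul_le_mul_of_nonneg_left hpow hCd.le
    have h5 := hmono.trans (hor.trans (add_le_add (h1.trans h3) (h2.trans h4)))
    refine h5.trans ?_
    nlinarith
  · push Not at h256
    have h1 : PQ (1/2) S P ≤ 1 := Pr_le_one okh _ _
    refine h1.trans ?_
    have h2 : 1 ≤ 256 * (r / d) := by
      rw [← mul_div_assoc, le_div_iff₀ hd0]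
      linarith
    have h3 : 1 ≤ (256 * (r / d)) ^ (5/4 : ℝ) := Real.one_le_rpow h2 (by norm_num)
    nlinarith

/-- **double points** -/
theorem t_DBL (hU : PD_UO) (hA : St_Aa) (hAd : St_Ad) {s : Seq} {D : Set ℂ} (hD : IsOpen D)
    (hag : s.Agree D) {γ : ℕ → Finset Edg → Curve} (hγ : Itf s D γ)
    {μ : ProbabilityMeasure Curve} (hμ : Tendsto (law s γ) atTop (𝓝 μ)) :
    ∀ᵐ c : Curve ∂(μ : Measure Curve), ∀ i : ℕ,
      dimH (DPc (1 / ((i : ℝ) + 1)) c.path ∩ D) ≤ 3 / 4 := by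
  obtain ⟨C, hC, hP⟩ := prob4 hA hAd
  have key := fixed_dim (E := fun d z r => Pool.Agent.W822.PD.EvC z r (d / 2))
    (fun d z r => (Pool.Agent.W978.PDUL.EvC_open _ _ _).measurableSet)
    (S := fun η (c : Curve) => DPc η c.path) ?_ hD hC (s := 5/4) (by norm_num)
    (μ := (μ : Measure Curve)) ?_ Set.univ
  · filter_upwards [key] with c hc i
    refine (dimH_mono ?_).trans (hc.1.trans ?_)
    · rintro y ⟨hy1, hy2⟩
      exact ⟨⟨Set.mem_iUnion.2 ⟨i, hy1⟩, trivial⟩, hy2⟩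
    · have h1 : dimH (Set.univ : Set ℂ) = 2 := by
        rw [Real.dimH_univ_eq_finrank (E := ℂ), Complex.finrank_real_complex]
        norm_num
      rw [h1, show (2 : ℝ≥0∞) = ENNReal.ofReal 2 by norm_num,
        ← ENNReal.ofReal_sub _ (by norm_num)]
      rw [show (2 - 5 / 4 : ℝ) = 3 / 4 by norm_num, ENNReal.ofReal_div_of_pos (by norm_num)]
      norm_num
  · rintro η d z r w c hdη hrd ⟨s, t, hst, hs, ht, ⟨u, hu, hu2⟩, v, hv, hv2⟩ hwz
    refine ⟨s, t, hst, by rw [hs]; exact hwz, by rw [ht]; exact hwz, ⟨u, hu, ?_⟩, v, hv, ?_⟩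
    · have := dist_triangle_right (c.path u) w z
      linarith
    · have := dist_triangle_right (c.path v) w z
      linarith
  · intro z r d hr hrd hball
    have hd0 : 0 < d := hr.trans_le hrd
    refine (ProbabilityMeasure.le_liminf_measure_open_of_tendsto hμ (Pool.Agent.W978.PDUL.EvC_open _ _ _)).trans ?_
    refine liminf_le_of_frequently_le (Eventually.frequently ?_)
    have hb1 : Metric.closedBall z (d / 2) ⊆ D :=
      (Metric.closedBall_subset_ball (by linarith)).trans hball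
    filter_upwards [s.lim.eventually (gt_mem_nhds hr), hag _ hb1 (isCompact_closedBall _ _),
      hγ ∅ (Set.empty_subset _) isCompact_empty] with n hn hn2 hn3
    have hlaw : ((law s γ n : ProbabilityMeasure Curve) : Measure Curve)
        (Pool.Agent.W822.PD.EvC z r (d / 2)) = _ :=
      Run7.h561.CC.lawE_apply (s.E n) (γ n) (Pool.Agent.W978.PDUL.EvC_open z r (d / 2)).measurableSet
    rw [hlaw]
    apply ENNReal.ofReal_le_ofReal
    refine hP (s.δ n) (s.o n) z r d (s.E n) (s.G n) _ (s.pos n) hr hd0 hn2 ?_ hn.le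
    intro F hF hE h256
    obtain ⟨σ, N, hN, hdis, hpath, -⟩ := hn3 F hF
    exact detD hU (s.pos n) hn.le h256 hN hdis hpath hE

end Run7.h165.GI
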