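import Pool.Agent.Run7.h165.GI.Defs
import Pool.Agent.Run7.h165.GI.Acc
import Pool.Agent.Run7.h165.GI.Dbl
import Pool.Agent.Run7.h561.EC.P_J3

/-! # The chordal interface of a rectangle: left and lower sides wired, the others free -/

set_option autoImplicit false

namespace Run7.h165.GI

open H974 H12S Finset H984P H342L H342T MeasureTheory Filter Topology
open Run7.h561.CC (Seq lawE)
open Pool.Agent.TH990.FU (zp)

/-- The configuration in the box `{0, …, m} × {0, …, h}`: the sampled open edges, and all the edges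
of the left and lower sides. -/
noncomputable def Gr (m h : ℤ) (F : Finset Edg) : Finset Edg := F ∪ (RE 0 m 0 0 ∪ RE 0 0 0 h)

/-- the state at the upper left corner, with the face on the outer side of the left side -/
def stA (h : ℤ) : St := ((0, h), .nw)

/-- the state at the lower right corner, with the face on the outer side of the lower side -/
def stB (m : ℤ) : St := ((m, 0), .se)

theorem nG {m h : ℤ} {F : Finset Edg} (hF : F ⊆ RE 0 m 0 h) {e : Edg} (he : e ∈ Gr m h F) :
    0 ≤ e.1 ∧ 0 ≤ e.2.1 := by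
  unfold Gr at he
  rw [Finset.mem_union, Finset.mem_union] at he
  obtain ⟨x, y, _ | _⟩ := e
  · rcases he with he | he | he
    · have := hF he
      simp only [mem_RE_false] at this
      simp only
      omega
    · simp only [mem_RE_false] at he
      simp only
      omega
    · simp only [mem_RE_false] at he
      simp only
      omega
  · rcases he with he | he | he
    · have := hF he
      simp only [mem_RE_true] at this
      simp only
      omega
    · simp only [mem_RE_true] at he
      simp only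
      omega
    · simp only [mem_RE_true] at he
      simp only
      omega

section step
variable {m h : ℤ} {F : Finset Edg} (hF : F ⊆ RE 0 m 0 h)
include hF

theorem st_se (x : ℤ) : nxt (↑(Gr m h F) : Set Edg) ((x, 0), .se) = ((x, 0), .sw) := by
  rw [nxt_closed]
  · rfl
  · intro he
    have := nG hF (Finset.mem_coe.1 he)
    simp at this

omit hF in
theorem st_sw {x : ℤ} (h1 : 0 < x) (h2 : x ≤ m) :
    nxt (↑(Gr m h F) : Set Edg) ((x, 0), .sw) = ((x - 1, 0), .se) := by
  rw [nxt_open]
  · rfl
  · rw [Finset.mem_coe]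
    unfold Gr
    refine Finset.mem_union_right _ (Finset.mem_union_left _ ?_)
    show ((x - 1, 0, true) : Edg) ∈ RE 0 m 0 0
    simp only [mem_RE_true]
    omega

theorem st_sw' (y : ℤ) : nxt (↑(Gr m h F) : Set Edg) ((0, y), .sw) = ((0, y), .nw) := by
  rw [nxt_closed]
  · rfl
  · intro he
    have := nG hF (Finset.mem_coe.1 he)
    simp at this

omit hF in
theorem st_nw {y : ℤ} (h1 : 0 ≤ y) (h2 : y < h) :
    nxt (↑(Gr m h F) : Set Edg) ((0, y), .nw) = ((0, y + 1), .sw) := by
  rw [nxt_open]
  · rfl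
  · rw [Finset.mem_coe]
    unfold Gr
    refine Finset.mem_union_right _ (Finset.mem_union_right _ ?_)
    show ((0, y, false) : Edg) ∈ RE 0 0 0 h
    simp only [mem_RE_false]
    omega

/-- the lower side -/
theorem low_side (hm : 0 ≤ m) (i : ℕ) (hi : (i : ℤ) ≤ m) :
    orb (↑(Gr m h F) : Set Edg) (stB m) (2 * i) = ((m - i, 0), .se) := by
  induction i with
  | zero => simp [stB]
  | succ i ih =>
    have h1 := ih (by push_cast at hi; omega)
    rw [show 2 * (i + 1) = 2 * i + 1 + 1 by ring, orb_succ, orb_succ, h1, st_se hF,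
      st_sw (by push_cast at hi; omega) (by omega)]
    push_cast
    rw [sub_sub]

/-- the left side -/
theorem left_side (hm : 0 ≤ m) (i : ℕ) (hi : (i : ℤ) ≤ h) :
    orb (↑(Gr m h F) : Set Edg) (stB m) (2 * m.toNat + 2 + 2 * i) = ((0, (i : ℤ)), .nw) := by
  induction i with
  | zero =>
    have h1 := low_side hF hm m.toNat (by omega)
    rw [show 2 * m.toNat + 2 + 2 * 0 = 2 * m.toNat + 1 + 1 by ring, orb_succ, orb_succ, h1,
      Int.toNat_of_nonneg hm, sub_self, st_se hF, st_sw' hF]
    rfl
  | succ i ih =>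
    have h1 := ih (by push_cast at hi; omega)
    rw [show 2 * m.toNat + 2 + 2 * (i + 1) = 2 * m.toNat + 2 + 2 * i + 1 + 1 by ring, orb_succ,
      orb_succ, h1, st_nw (by omega) (by push_cast at hi; omega), st_sw' hF]
    push_cast
    rfl

/-- the way from the lower right corner to the upper left corner outside of the rectangle -/
theorem outer_end (hm : 0 ≤ m) (hh : 0 ≤ h) :
    orb (↑(Gr m h F) : Set Edg) (stB m) (2 * m.toNat + 2 + 2 * h.toNat) = stA h := by
  rw [left_side hF hm h.toNat (by omega), Int.toNat_of_nonneg hh]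
  rfl

/-- all vertices on this way are on the left and lower sides -/
theorem outer_side (hm : 0 ≤ m) (hh : 0 ≤ h) (j : ℕ) (hj : j ≤ 2 * m.toNat + 2 + 2 * h.toNat) :
    (orb (↑(Gr m h F) : Set Edg) (stB m) j).1.1 = 0 ∨
      (orb (↑(Gr m h F) : Set Edg) (stB m) j).1.2 = 0 := by
  rcases Nat.lt_or_ge j (2 * m.toNat + 2) with h1 | h1
  · right
    obtain ⟨i, hi | hi⟩ : ∃ i, j = 2 * i ∨ j = 2 * i + 1 := ⟨j / 2, by omega⟩
    · rw [hi, low_side hF hm i (by omega)]
    · rw [hi, orb_succ, low_side hF hm i (by omega), st_se hF]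
  · left
    obtain ⟨i, hi | hi⟩ : ∃ i, j = 2 * m.toNat + 2 + 2 * i ∨ j = 2 * m.toNat + 2 + 2 * i + 1 :=
      ⟨(j - (2 * m.toNat + 2)) / 2, by omega⟩
    · rw [hi, left_side hF hm i (by omega)]
    · rw [hi, orb_succ, left_side hF hm i (by omega), st_nw (by omega) (by omega)]

end step

/-- `c` is the interface from the upper left corner to the lower right corner: the first passage of
the tracing rule from the one to the other, between the cluster of the wired sides on the right and
the free sides on the left. -/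
def IsChord (δ : ℝ) (o : ℂ) (m h : ℤ) (F : Finset Edg) (c : Curve) : Prop :=
  ∃ N : ℕ, orb (↑(Gr m h F) : Set Edg) (stA h) N = stB m ∧
    (∀ j < N, orb (↑(Gr m h F) : Set Edg) (stA h) j ≠ stB m) ∧
    c.path = poly (fun j => zp δ o (orb (↑(Gr m h F) : Set Edg) (stA h) j).1) N

theorem orb_inj {G : Set Edg} {σ τ : St} {t : ℕ} (h : orb G σ t = orb G τ t) : σ = τ := by
  induction t with
  | zero => exact h
  | succ t ih =>
    rw [orb_succ, orb_succ] at h
    exact ih ((nxt_bij G).1 h)

theorem chord_exists {δ : ℝ} {o : ℂ} {m h : ℤ} (hm : 0 ≤ m) (hh : 0 ≤ h) {F : Finset Edg}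
    (hF : F ⊆ RE 0 m 0 h) : ∃ c, IsChord δ o m h F c := by
  classical
  have hex : ∃ N : ℕ, orb (↑(Gr m h F) : Set Edg) (stA h) N = stB m := by
    obtain ⟨P, hP, hper⟩ := P17.periodic (Gr m h F) (stA h)
    set K := 2 * m.toNat + 2 + 2 * h.toNat with hK
    have h1 : orb (↑(Gr m h F) : Set Edg) (stA h) (K * P) = stA h := by
      have := Run7.h561.EC.orb_per' hper K 0
      simpa using this
    refine ⟨K * P - K, ?_⟩
    apply orb_inj (t := K)
    rw [outer_end hF hm hh, ← orb_add, show K + (K * P - K) = K * P by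
      have : K ≤ K * P := Nat.le_mul_of_pos_right K hP
      omega]
    exact h1
  exact ⟨⟨poly (fun j => zp δ o (orb (↑(Gr m h F) : Set Edg) (stA h) j).1) (Nat.find hex)⟩,
    Nat.find hex, Nat.find_spec hex, fun j hj => Nat.find_min hex hj, rfl⟩

/-- The chordal interface is an interface which contains all visits of the open rectangle. -/
theorem chord_itf {δ : ℝ} {o : ℂ} {m h : ℤ} (hm : 0 ≤ m) (hh : 0 ≤ h) {F : Finset Edg}
    (hF : F ⊆ RE 0 m 0 h) {c : Curve} (hc : IsChord δ o m h F c) {L : Set ℂ}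
    (hL : ∀ v : Vtx, v.1 = 0 ∨ v.2 = 0 → zp δ o v ∉ L) :
    IsItf δ o (↑(Gr m h F) : Set Edg) L c := by
  obtain ⟨N, hN, hmin, hpath⟩ := hc
  set G : Set Edg := ↑(Gr m h F) with hG
  set K := 2 * m.toNat + 2 + 2 * h.toNat with hK
  have hN0 : 0 < N := by
    rcases Nat.eq_zero_or_pos N with h0 | h0
    · exfalso
      rw [h0] at hN
      have : stA h = stB m := hN
      unfold stA stB at this
      simp at this
    · exact h0
  have hper : orb G (stA h) (K + N) = stA h := by
    rw [orb_add, hN]
    exact outer_end hF hm hh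
  refine ⟨stA h, N, hN0, ?_, hpath, ?_⟩
  · intro i j hij hjN he
    have h1 : orb G (stA h) (j - i) = stA h := by
      apply orb_inj (t := i)
      rw [← orb_add, show i + (j - i) = j by omega, ← he]
    have h2 : orb G (stA h) (N - (j - i)) = stB m := by
      rw [← hN]
      conv_rhs => rw [show N = (N - (j - i)) + (j - i) by omega, orb_add, h1]
    exact hmin _ (by omega) h2
  · intro τ hτ hτL
    have hlt : ∃ t < K + N, orb G (stA h) t = τ := by
      obtain ⟨t, ht | ht⟩ := hτ
      · exact ⟨t % (K + N), Nat.mod_lt _ (by omega), by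
          rw [Run7.h561.EC.orb_mod hper]; exact ht⟩
      · refine ⟨(t * (K + N) - t) % (K + N), Nat.mod_lt _ (by omega), ?_⟩
        rw [Run7.h561.EC.orb_mod hper]
        apply orb_inj (t := t)
        rw [ht, ← orb_add, show t + (t * (K + N) - t) = 0 + t * (K + N) by
          have : t ≤ t * (K + N) := Nat.le_mul_of_pos_right t (by omega)
          omega, Run7.h561.EC.orb_per' hper]
        rfl
    obtain ⟨t, ht, rfl⟩ := hlt
    rcases Nat.lt_or_ge t N with h1 | h1
    · exact ⟨t, h1, rfl⟩
    · exfalso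
      refine hL _ ?_ hτL
      rw [show t = (t - N) + N by omega, orb_add, hN]
      exact outer_side hF hm hh (t - N) (by omega)

/-! ### The sequence of lattices -/

/-- The open rectangle with lower left corner `o` and sides `a`, `b`. -/
def rectD (o : ℂ) (a b : ℝ) : Set ℂ :=
  {z | (o.re < z.re ∧ z.re < o.re + a) ∧ (o.im < z.im ∧ z.im < o.im + b)}

/-- The lattices with mesh `δ n`, with a vertex at the lower left corner of the rectangle; all the
edges in the rectangle are sampled; the left and lower sides are wired, the others free. -/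
noncomputable def rectSeq (o : ℂ) (a b : ℝ) (δ : ℕ → ℝ) (pos : ∀ n, 0 < δ n)
    (lim : Tendsto δ atTop (𝓝 0)) : Seq where
  δ := δ
  o := fun _ => o
  E := fun n => RE 0 ⌊a / δ n⌋ 0 ⌊b / δ n⌋
  G := fun n F => ↑(Gr ⌊a / δ n⌋ ⌊b / δ n⌋ F)
  pos := pos
  lim := lim

theorem rect_open (o : ℂ) (a b : ℝ) : IsOpen (rectD o a b) := by
  refine IsOpen.inter (IsOpen.inter ?_ ?_) (IsOpen.inter ?_ ?_)
  · exact isOpen_lt continuous_const Complex.continuous_re
  · exact isOpen_lt Complex.continuous_re continuous_const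
  · exact isOpen_lt continuous_const Complex.continuous_im
  · exact isOpen_lt Complex.continuous_im continuous_const

theorem rect_in {o : ℂ} {a b δ : ℝ} (hδ : 0 < δ) {v : Vtx} (hv : zp δ o v ∈ rectD o a b) :
    (0 < v.1 ∧ v.1 ≤ ⌊a / δ⌋) ∧ (0 < v.2 ∧ v.2 ≤ ⌊b / δ⌋) := by
  obtain ⟨⟨h1, h2⟩, h3, h4⟩ := hv
  change o.re < o.re + δ * v.1 at h1
  change o.re + δ * v.1 < o.re + a at h2
  change o.im < o.im + δ * v.2 at h3
  change o.im + δ * v.2 < o.im + b at h4
  have key : ∀ (c : ℝ) (x : ℤ), 0 < δ * (x : ℝ) → δ * (x : ℝ) < c → 0 < x ∧ x ≤ ⌊c / δ⌋ := by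
    intro c x g1 g2
    constructor
    · have : (0 : ℝ) < x := by
        by_contra hcon
        push Not at hcon
        nlinarith
      exact_mod_cast this
    · rw [Int.le_floor, le_div_iff₀ hδ]
      linarith
  exact ⟨key _ _ (by linarith) (by linarith), key _ _ (by linarith) (by linarith)⟩

theorem rect_agree (o : ℂ) (a b : ℝ) (δ : ℕ → ℝ) (pos : ∀ n, 0 < δ n)
    (lim : Tendsto δ atTop (𝓝 0)) : (rectSeq o a b δ pos lim).Agree (rectD o a b) := by
  intro L hL _
  refine Eventually.of_forall fun n e h1 h2 => ?_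
  obtain ⟨⟨a1, a2⟩, a3, a4⟩ := rect_in (pos n) (hL h1)
  obtain ⟨⟨b1, b2⟩, b3, b4⟩ := rect_in (pos n) (hL h2)
  have hE : e ∈ RE 0 ⌊a / δ n⌋ 0 ⌊b / δ n⌋ := by
    obtain ⟨x, y, _ | _⟩ := e
    · rw [tgt_false] at b1 b2 b3 b4
      simp only [src] at a1 a2 a3 a4
      simp only at b1 b2 b3 b4
      simp only [mem_RE_false]
      omega
    · rw [tgt_true] at b1 b2 b3 b4
      simp only [src] at a1 a2 a3 a4
      simp only at b1 b2 b3 b4
      simp only [mem_RE_true]
      omega
  refine ⟨hE, fun F _ => ?_⟩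
  show e ∈ (↑(Gr ⌊a / δ n⌋ ⌊b / δ n⌋ F) : Set Edg) ↔ e ∈ F
  rw [Finset.mem_coe]
  unfold Gr
  rw [Finset.mem_union, Finset.mem_union]
  constructor
  · rintro (h | h | h)
    · exact h
    · exfalso
      obtain ⟨x, y, _ | _⟩ := e
      · simp only [src] at a3
        simp only [mem_RE_false] at h
        omega
      · simp only [src] at a3
        simp only [mem_RE_true] at h
        omega
    · exfalso
      obtain ⟨x, y, _ | _⟩ := e
      · simp only [src] at a1
        simp only [mem_RE_false] at h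
        omega
      · simp only [src] at a1
        simp only [mem_RE_true] at h
        omega
  · exact Or.inl

/-- `γ` is the chordal interface of the rectangle. -/
def Chordal (o : ℂ) (a b : ℝ) (δ : ℕ → ℝ) (γ : ℕ → Finset Edg → Curve) : Prop :=
  ∀ n, ∀ F ⊆ RE 0 ⌊a / δ n⌋ 0 ⌊b / δ n⌋, IsChord (δ n) o ⌊a / δ n⌋ ⌊b / δ n⌋ F (γ n F)

theorem rect_itf {o : ℂ} {a b : ℝ} (ha : 0 < a) (hb : 0 < b) {δ : ℕ → ℝ} (pos : ∀ n, 0 < δ n)
    (lim : Tendsto δ atTop (𝓝 0)) {γ : ℕ → Finset Edg → Curve} (hγ : Chordal o a b δ γ) :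
    Itf (rectSeq o a b δ pos lim) (rectD o a b) γ := by
  intro L hL _
  refine Eventually.of_forall fun n F hF => ?_
  have hp := pos n
  refine chord_itf (Int.floor_nonneg.2 (by positivity)) (Int.floor_nonneg.2 (by positivity)) hF
    (hγ n F hF) ?_
  intro v hv hvL
  obtain ⟨⟨a1, a2⟩, a3, a4⟩ := rect_in hp (hL hvL)
  omega

end Run7.h165.GI
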