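import Pool.Agent.Run7.h165.GI.All
import Pool.Agent.Run7.h165.GI.Rc

/-! # The dimension of all the relatively open pieces of the boundaries -/

set_option autoImplicit false

namespace Run7.h165.GI

open H974 H342L H342T MeasureTheory Filter Topology
open Run7.h561.CC (Seq)
open scoped ENNReal

/-- From balls to open sets. -/
theorem open_dim {A W : Set ℂ} (h : ∀ z ∈ A, z ∈ W → ∀ ρ : ℝ, 0 < ρ →
    dimH (A ∩ (W ∩ Metric.ball z ρ)) = 4 / 3) {V : Set ℂ} (hV : IsOpen V) (hVW : V ⊆ W)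
    (hne : (A ∩ V).Nonempty) : dimH (A ∩ V) = 4 / 3 := by
  apply le_antisymm
  · by_contra hcon
    push Not at hcon
    obtain ⟨x, hx, h1⟩ := exists_mem_nhdsWithin_lt_dimH_of_lt_dimH hcon
    have h2 := h1 (A ∩ (W ∩ Metric.ball x 1)) (by
      rw [mem_nhdsWithin]
      refine ⟨Metric.ball x 1, Metric.isOpen_ball, Metric.mem_ball_self one_pos, ?_⟩
      rintro y ⟨hy1, hy2, hy3⟩
      exact ⟨hy2, hVW hy3, hy1⟩)
    rw [h x hx.1 (hVW hx.2) 1 one_pos] at h2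
    exact lt_irrefl _ h2
  · obtain ⟨z, hz1, hz2⟩ := hne
    obtain ⟨ρ, hρ, hb⟩ := Metric.isOpen_iff.1 hV z hz2
    rw [← h z hz1 (hVW hz2) ρ hρ]
    apply dimH_mono
    rintro y ⟨hy1, -, hy3⟩
    exact ⟨hy1, hb hy3⟩

end Run7.h165.GI
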