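import Pool.Agent.Run7.h165.GI.Rx4

/-! # The end points of the limits -/

set_option autoImplicit false

namespace Run7.h165.GI

open H974 H12S Finset H984P H342L H342T MeasureTheory Filter Topology
open Run7.h561.CC (Seq lawE lawE_apply)
open Pool.Agent.TH990.FU (zp)
open scoped ENNReal

theorem eval_dist {x : unitInterval} (hx : ∀ φ : unitInterval ≃o unitInterval, φ x = x)
    (c c' : Curve) : dist (c.path x) (c'.path x) ≤ dist c c' := by
  rw [Curve.dist_def, cdist_eq]
  refine le_ciInf fun φ => ?_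
  have h := ContinuousMap.dist_apply_le_dist (f := c.path) (g := rep c'.path φ) x
  rwa [rep_apply, hx] at h

/-- An end point of the limit. -/
theorem end_lim {s : Seq} {γ : ℕ → Finset Edg → Curve} {x : unitInterval}
    (hx : ∀ φ : unitInterval ≃o unitInterval, φ x = x) {p : ℂ}
    (h : ∀ ε : ℝ, 0 < ε → ∀ᶠ n in atTop, ∀ F ⊆ s.E n, dist ((γ n F).path x) p ≤ ε)
    {μ : ProbabilityMeasure Curve} (hμ : Tendsto (law s γ) atTop (𝓝 μ)) :
    ∀ᵐ c : Curve ∂(μ : Measure Curve), c.path x = p := by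
  classical
  have hok : Ok (fun _ : Edg => (1/2:ℝ)) := fun _ => ⟨by norm_num, by norm_num⟩
  have hcont : Continuous (fun c : Curve => c.path x) :=
    (LipschitzWith.of_dist_le_mul (K := 1) (fun c c' => by
      simpa using eval_dist hx c c')).continuous
  have key : ∀ k : ℕ, ∀ᵐ c : Curve ∂(μ : Measure Curve), dist (c.path x) p ≤ 1 / ((k : ℝ) + 1) := by
    intro k
    have hopen : IsOpen {c : Curve | ¬ dist (c.path x) p ≤ 1 / ((k : ℝ) + 1)} := by
      have : {c : Curve | ¬ dist (c.path x) p ≤ 1 / ((k : ℝ) + 1)} =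
          (fun c : Curve => dist (c.path x) p) ⁻¹' Set.Ioi (1 / ((k : ℝ) + 1)) := by
        ext c
        simp
      rw [this]
      exact isOpen_Ioi.preimage (hcont.dist continuous_const)
    rw [ae_iff]
    have h1 := ProbabilityMeasure.le_liminf_measure_open_of_tendsto hμ hopen
    refine le_antisymm (h1.trans ?_) (zero_le)
    have h2 : ∀ᶠ n in atTop, (law s γ n : Measure Curve)
        {c : Curve | ¬ dist (c.path x) p ≤ 1 / ((k : ℝ) + 1)} = 0 := by
      filter_upwards [h (1 / ((k : ℝ) + 1)) (by positivity)] with n hn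
      unfold law
      rw [lawE_apply _ _ hopen.measurableSet]
      have : PQ (1 / 2) (s.E n) (fun F => γ n F ∈
          {c : Curve | ¬ dist (c.path x) p ≤ 1 / ((k : ℝ) + 1)}) = 0 := by
        unfold PQ Pr
        rw [Ex_congr (g := fun _ => 0) (fun F hF => ind_not_of (fun h => h (hn F hF))), Ex_const]
      rw [this, ENNReal.ofReal_zero]
    rw [Filter.liminf_congr h2]
    simp
  filter_upwards [ae_all_iff.2 key] with c hc
  apply dist_le_zero.1
  exact ge_of_tendsto' tendsto_one_div_add_atTop_nhds_zero_nat hc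

/-- The limits go from the upper left corner to the lower right corner. -/
theorem chord_ends {o : ℂ} {a b : ℝ} {δ : ℕ → ℝ} (pos : ∀ n, 0 < δ n)
    (lim : Tendsto δ atTop (𝓝 0)) {γ : ℕ → Finset Edg → Curve} (hγ : Chordal o a b δ γ)
    {μ : ProbabilityMeasure Curve}
    (hμ : Tendsto (law (rectSeq o a b δ pos lim) γ) atTop (𝓝 μ)) :
    ∀ᵐ c : Curve ∂(μ : Measure Curve), c.path 0 = ⟨o.re, o.im + b⟩ ∧
      c.path 1 = ⟨o.re + a, o.im⟩ := by
  have hfl : ∀ x d : ℝ, 0 < d → |d * (⌊x / d⌋ : ℝ) - x| ≤ d := by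
    intro x d hd
    have h1 := Int.floor_le (x / d)
    have h2 := Int.lt_floor_add_one (x / d)
    rw [le_div_iff₀ hd] at h1
    rw [div_lt_iff₀ hd] at h2
    rw [abs_le]
    constructor <;> nlinarith
  have hN : ∀ n F, F ⊆ RE 0 ⌊a / δ n⌋ 0 ⌊b / δ n⌋ →
      (γ n F).path 0 = zp (δ n) o (0, ⌊b / δ n⌋) ∧ (γ n F).path 1 = zp (δ n) o (⌊a / δ n⌋, 0) := by
    intro n F hF
    obtain ⟨N, h1, h2, h3⟩ := hγ n F hF
    have hN0 : 0 < N := by
      rcases Nat.eq_zero_or_pos N with h0 | h0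
      · exfalso
        rw [h0] at h1
        have : stA ⌊b / δ n⌋ = stB ⌊a / δ n⌋ := h1
        unfold stA stB at this
        simp at this
      · exact h0
    obtain ⟨e0, e1, -, -⟩ := t_POL
      (fun j => zp (δ n) o (orb (↑(Gr ⌊a / δ n⌋ ⌊b / δ n⌋ F) : Set Edg) (stA ⌊b / δ n⌋) j).1) N hN0
    rw [h3, e0, e1]
    refine ⟨rfl, ?_⟩
    simp only [h1]
    rfl
  have e1 := end_lim (s := rectSeq o a b δ pos lim) (γ := γ) (x := 0)
    (p := ⟨o.re, o.im + b⟩) (fun φ => φ.map_bot) (fun ε hε => by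
      filter_upwards [(tendsto_order.1 lim).2 ε hε] with n hn F hF
      rw [(hN n F hF).1, Complex.dist_eq_re_im]
      simp only [zp]
      push_cast
      rw [show (o.re + δ n * 0 - o.re) ^ 2 + (o.im + δ n * (⌊b / δ n⌋ : ℝ) - (o.im + b)) ^ 2 =
        (δ n * (⌊b / δ n⌋ : ℝ) - b) ^ 2 by ring, Real.sqrt_sq_eq_abs]
      exact (hfl b _ (pos n)).trans hn.le) hμ
  have e2 := end_lim (s := rectSeq o a b δ pos lim) (γ := γ) (x := 1)
    (p := ⟨o.re + a, o.im⟩) (fun φ => φ.map_top) (fun ε hε => by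
      filter_upwards [(tendsto_order.1 lim).2 ε hε] with n hn F hF
      rw [(hN n F hF).2, Complex.dist_eq_re_im]
      simp only [zp]
      push_cast
      rw [show (o.re + δ n * (⌊a / δ n⌋ : ℝ) - (o.re + a)) ^ 2 + (o.im + δ n * 0 - o.im) ^ 2 =
        (δ n * (⌊a / δ n⌋ : ℝ) - a) ^ 2 by ring, Real.sqrt_sq_eq_abs]
      exact (hfl a _ (pos n)).trans hn.le) hμ
  filter_upwards [e1, e2] with c h1 h2
  exact ⟨h1, h2⟩

end Run7.h165.GI
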