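import Pool.Agent.Run7.h165.GI.Dbl
import Pool.Agent.Run7.h165.EC.Finl

/-! # All the arcs of the limits of interfaces in any domain -/

set_option autoImplicit false

namespace Run7.h165.GI

open Set Filter Topology Metric MeasureTheory
open Run7.h561.EC H342T H342L Run7.h165.EC
open Run7.h561.CC (Seq lawE)
open scoped ENNReal NNReal

/-- HIT for the interfaces in `D`. -/
def HitG (D : Set ℂ) (μ : ProbabilityMeasure Curve) : Prop := ∀ t : ℝ, 0 < t → t < 4 / 3 →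
    ∀ (d : ℤ × ℤ) (H η : ℝ) (w : ℂ), Dir d → 0 < H → 0 < η →
    Run7.h561.EC.Sq (5 * H) w ⊆ D →
    ∀ᵐ c : Curve ∂(μ : Measure Curve), c.path ∈ EvL d H η w →
      ENNReal.ofReal t ≤ dimH (Lb (Run7.h561.EC.Sq (4 * H) w) (range c.path) w)

/-- **FIN** -/
theorem t_FIN {D : Set ℂ} (hD : IsOpen D) {μ : ProbabilityMeasure Curve} (hit : HitG D μ)
    (acc : ∀ᵐ c : Curve ∂(μ : Measure Curve),
      dimH ((⋃ i : ℕ, Pool.Agent.TH990.FU.Acc (1 / ((i : ℝ) + 1)) c.path) ∩ D) ≤ 4 / 3)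
    (dbc : ∀ᵐ c : Curve ∂(μ : Measure Curve), ∀ i : ℕ,
      dimH (Pool.Agent.W822.PD.DPc (1 / ((i : ℝ) + 1)) c.path ∩ D) ≤ 3 / 4)
    (mlf : S_MLF) (axi : S_AXI) :
    ∀ᵐ c : Curve ∂(μ : Measure Curve), ∀ s t : unitInterval,
      (∃ u ∈ Set.Icc s t, c.path u ≠ c.path s) → ∀ U : Set ℂ, IsOpen U → ∀ w z : ℂ, z ∈ U →
      z ∈ D →
      z ∈ frontier (connectedComponentIn (U \ c.path '' Set.Icc s t) w) → ∀ ρ : ℝ, 0 < ρ →
        dimH (frontier (connectedComponentIn (U \ c.path '' Set.Icc s t) w) ∩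
          (U ∩ D ∩ Metric.ball z ρ)) = 4 / 3 := by
  have h1 : ∀ᵐ c : Curve ∂(μ : Measure Curve), ∀ (a b H η : ℚ) (d : ℤ × ℤ) (j : ℕ),
      Run7.h561.EC.Dir d → 0 < H → 0 < η →
      Run7.h561.EC.Sq (5 * (H : ℝ)) ⟨a, b⟩ ⊆ D → c.path ∈ EvL d H η ⟨a, b⟩ →
        ENNReal.ofReal (4 / 3 - 1 / ((j : ℝ) + 1)) ≤
          dimH (Lb (Run7.h561.EC.Sq (4 * (H : ℝ)) ⟨a, b⟩) (range c.path) ⟨a, b⟩) := by
    refine ae_all_iff.2 fun a => ae_all_iff.2 fun b => ae_all_iff.2 fun H =>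
      ae_all_iff.2 fun η => ae_all_iff.2 fun d => ae_all_iff.2 fun j => ?_
    by_cases hc : Run7.h561.EC.Dir d ∧ 0 < H ∧ 0 < η ∧
        Run7.h561.EC.Sq (5 * (H : ℝ)) ⟨a, b⟩ ⊆ D
    · obtain ⟨c1, c2, c3, c4⟩ := hc
      have hk0 : (0 : ℝ) < 1 / ((j : ℝ) + 1) := by positivity
      have hk1 : 1 / ((j : ℝ) + 1) ≤ 1 := by
        rw [div_le_one (by positivity)]
        have : (0 : ℝ) ≤ j := Nat.cast_nonneg _
        linarith
      filter_upwards [hit (4 / 3 - 1 / ((j : ℝ) + 1)) (by linarith) (by linarith)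
        d H η ⟨a, b⟩ c1 (by exact_mod_cast c2) (by exact_mod_cast c3) c4] with c hc _ _ _ _
      exact hc
    · exact Eventually.of_forall fun c e1 e2 e3 e4 => absurd ⟨e1, e2, e3, e4⟩ hc
  filter_upwards [h1, dbc, acc] with c g1 g2 g3
  intro s t hst U hU w z hzU hz hzf ρ hρ
  obtain ⟨u, ⟨hu1, hu2⟩, hu3⟩ := hst
  obtain ⟨φ, g, hm, hc, h0, h1', hf, h4⟩ := mlf c.path ⟨u, s, hu3⟩
  have hst : s ≤ t := hu1.trans hu2
  have hlt : φ s < φ t := by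
    refine lt_of_lt_of_le ?_ (hm hu2)
    refine lt_of_le_of_ne (hm hu1) fun e => hu3 ?_
    rw [hf, hf, e]
  have hr := fac_range hc h0 h1' hf
  have himg := fac_image hm hc hf hst
  have hacc : ∀ η : ℝ, Pool.Agent.TH990.FU.Acc η g = Pool.Agent.TH990.FU.Acc η c.path := by
    intro η
    ext y
    unfold Pool.Agent.TH990.FU.Acc
    simp only [Set.mem_ofPred_eq, hr]
    constructor
    · rintro ⟨e1, ⟨v, hv⟩, e2⟩
      obtain ⟨x, rfl⟩ := fac_surj hc h0 h1' v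
      exact ⟨e1, ⟨x, by rw [hf]; exact hv⟩, e2⟩
    · rintro ⟨e1, ⟨v, hv⟩, e2⟩
      exact ⟨e1, ⟨φ v, by rw [← hf]; exact hv⟩, e2⟩
  rw [himg] at hzf ⊢
  refine coreL (f := g) hD hU (fun a b H η d e1 e2 e3 e4 e5 => ?_) ?_ ?_
    h4 axi hlt hzU hz hzf hρ
  · rw [← hr]
    exact four_thirds_le fun j => g1 a b H η d j e1 e2 e3 e4 (fac_EvL hm hc h0 h1' hf e5)
  · refine (dimH_mono (Set.inter_subset_inter_left _ (fac_dbl hm hc h0 h1' hf h4))).trans ?_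
    rw [Set.union_inter_distrib_right, dimH_union, Set.iUnion_inter, dimH_iUnion]
    refine max_le (iSup_le g2) ?_
    refine (dimH_mono Set.inter_subset_left).trans ?_
    rw [dimH_singleton]
    exact zero_le
  · simp only [hacc]
    exact g3

end Run7.h165.GI
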