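import Pool.Agent.Run7.h165.GI.Hit2
import Pool.Agent.Run7.h165.GI.Fin

/-! # HIT for interfaces in any domain, part 3: the limit -/

set_option autoImplicit false

namespace Run7.h165.GI

open H974 H12S Finset H984P H984N H342P H342L H342T Run7.h561 Run7.h561.EC
open MeasureTheory Filter Topology
open Pool.Agent.H389R2.Dim Pool.Agent.Y989.FR Pool.Agent.W822.PD
open Pool.Agent.TH990.FU (zp)
open Run7.h561.CC (Seq lawE lawE_apply)
open scoped ENNReal

/-- Laws of random variables which are close to each other. -/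
theorem law_close {Y : Type*} [PseudoMetricSpace Y] [MeasurableSpace Y] [BorelSpace Y]
    {E : ℕ → Finset Edg} {f g : ℕ → Finset Edg → Y} {ε : ℕ → ℝ} (hε : Tendsto ε atTop (𝓝 0))
    (h : ∀ n, ∀ F ⊆ E n, dist (f n F) (g n F) ≤ ε n) {μ : ProbabilityMeasure Y}
    (hμ : Tendsto (fun n => lawE (E n) (f n)) atTop (𝓝 μ)) :
    Tendsto (fun n => lawE (E n) (g n)) atTop (𝓝 μ) := by
  apply tendsto_of_forall_isOpen_le_liminf'
  intro G hG
  set V : ℕ → Set Y := fun k => (Metric.cthickening (1 / ((k : ℝ) + 1)) Gᶜ)ᶜ with hV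
  have hVo : ∀ k, IsOpen (V k) := fun k => Metric.isClosed_cthickening.isOpen_compl
  have hVm : Monotone V := by
    intro i j hij
    exact Set.compl_subset_compl.2 (Metric.cthickening_mono (Nat.one_div_le_one_div hij) _)
  have hVG : G = ⋃ k, V k := by
    ext x
    constructor
    · intro hx
      have hcl : x ∉ closure Gᶜ := by
        rw [hG.isClosed_compl.closure_eq]
        exact fun h => h hx
      have hpos : 0 < Metric.infEDist x Gᶜ := by
        rw [pos_iff_ne_zero]
        intro h0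
        exact hcl (Metric.mem_closure_iff_infEDist_zero.2 h0)
      obtain ⟨k, hk⟩ : ∃ k : ℕ, ENNReal.ofReal (1 / ((k : ℝ) + 1)) < Metric.infEDist x Gᶜ := by
        have hl := ENNReal.tendsto_ofReal (tendsto_one_div_add_atTop_nhds_zero_nat (𝕜 := ℝ))
        rw [ENNReal.ofReal_zero] at hl
        exact (hl.eventually (gt_mem_nhds hpos)).exists
      refine Set.mem_iUnion.2 ⟨k, ?_⟩
      rw [hV]
      simp only [Set.mem_compl_iff, Metric.mem_cthickening_iff, not_le]
      exact hk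
    · intro hx
      obtain ⟨k, hk⟩ := Set.mem_iUnion.1 hx
      by_contra hcon
      exact hk (Metric.self_subset_cthickening _ hcon)
  rw [hVG, hVm.measure_iUnion, ← hVG]
  refine iSup_le fun k => ?_
  refine (ProbabilityMeasure.le_liminf_measure_open_of_tendsto hμ (hVo k)).trans ?_
  refine liminf_le_liminf ?_
  have hk0 : (0 : ℝ) < 1 / ((k : ℝ) + 1) := by positivity
  filter_upwards [hε.eventually (gt_mem_nhds hk0)] with n hn
  rw [lawE_apply _ _ (hVo k).measurableSet, lawE_apply _ _ hG.measurableSet]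
  apply ENNReal.ofReal_le_ofReal
  refine Pr_mono okhalf fun F hF hfF => ?_
  by_contra hcon
  apply hfF
  rw [Metric.mem_cthickening_iff]
  refine (Metric.infEDist_le_edist_of_mem (show g n F ∈ Gᶜ from hcon)).trans ?_
  rw [edist_dist]
  exact ENNReal.ofReal_le_ofReal ((h n F hF).trans hn.le)

theorem tc_dist (a : ℂ) (c : Curve) : dist c (tc a c) ≤ ‖a‖ := by
  rw [Curve.dist_def]
  refine (cdist_le c.path (tc a c).path (OrderIso.refl _)).trans ?_
  rw [ContinuousMap.dist_le (norm_nonneg _)]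
  intro s
  show dist (c.path s) (c.path s - a) ≤ ‖a‖
  rw [dist_eq_norm]
  simp

theorem os_norm {δ : ℝ} (hδ : 0 < δ) (o : ℂ) : ‖os δ o‖ ≤ 2 * δ := by
  obtain ⟨⟨b1, b2⟩, b3, b4⟩ := os_bd hδ o
  refine (Complex.norm_le_abs_re_add_abs_im _).trans ?_
  rw [abs_of_nonneg b1, abs_of_nonneg b3]
  linarith

theorem Sc_compact (r : ℝ) (w : ℂ) : IsCompact (Sc r w) := by
  apply Metric.isCompact_of_isClosed_isBounded
  · have h1 : IsClosed {z : ℂ | |z.re - w.re| ≤ r} := isClosed_le (by fun_prop) continuous_const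
    have h2 : IsClosed {z : ℂ | |z.im - w.im| ≤ r} := isClosed_le (by fun_prop) continuous_const
    exact h1.inter h2
  · refine (Metric.isBounded_closedBall (x := w) (r := r + r)).subset ?_
    rintro z ⟨h1, h2⟩
    exact H984N.ML.dist_le_of h1 h2

/-- **HIT for the interfaces in `D`** -/
theorem t_HITG (loc4 : S_LOC4) (dua : S_DUA) (chn : S_CHN) (qwc : S_QWC) (gew : S_GEW)
    {s : Seq} {D : Set ℂ} (hag : s.Agree D) {γ : ℕ → Finset Edg → Curve} (hγ : Itf s D γ)
    {μ : ProbabilityMeasure Curve} (hμ0 : Tendsto (law s γ) atTop (𝓝 μ)) : HitG D μ := by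
  have hμ : Tendsto (fun n => lawE (s.E n) (fun F => tc (os (s.δ n) (s.o n)) (γ n F))) atTop
      (𝓝 μ) := by
    refine law_close (f := γ) (ε := fun n => 2 * s.δ n) ?_ ?_ hμ0
    · have := s.lim.const_mul 2
      rwa [mul_zero] at this
    · intro n F _
      exact (tc_dist _ _).trans (os_norm (s.pos n) _)
  intro t ht ht1 d H η w hd hH hη hSq
  have hall : ∀ n : ℕ, ∀ᵐ p : Curve ∂(μ : Measure Curve),
      p.path ∈ EvN d H η (1 / ((n : ℝ) + 1)) w →
      ENNReal.ofReal t ≤ dimH (Lb (Run7.h561.EC.Sq (4 * H) w) (Set.range p.path) w) := by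
    intro n
    have hm : (0 : ℝ) < 1 / ((n : ℝ) + 1) := by positivity
    set m : ℝ := 1 / ((n : ℝ) + 1) with hmdef
    refine lgoC hμ ht (fun f => Lb (Run7.h561.EC.Sq (4 * H) w) (Set.range f) w)
      (open_EvN d H η m w) ?_
    intro ε hε
    obtain ⟨ε1, hε1, hε2⟩ : ∃ δ : ℝ, 0 < δ ∧ ENNReal.ofReal δ ≤ ε := by
      rcases eq_or_ne ε ∞ with h | h
      · exact ⟨1, one_pos, by rw [h]; exact le_top⟩
      · exact ⟨ε.toReal, ENNReal.toReal_pos hε.ne' h, by rw [ENNReal.ofReal_toReal h]⟩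
    obtain ⟨c, M', B, NN, hc, hM', hB, hcore⟩ := hit_coreA loc4 dua chn ht ht1 hd hH hη hm w hε1
    have hKc : IsCompact (Metric.closedBall (0 : ℂ) (‖w‖ + 2 * (4 * H))) :=
      isCompact_closedBall _ _
    refine ⟨c, Metric.closedBall (0 : ℂ) (‖w‖ + 2 * (4 * H)),
      fun k => QW (Run7.h561.EC.Sq (4 * H) w)ᶜ M' (‖w‖ + 2 * (4 * H)) (1 / ((k : ℝ) + 1)) B (NN k)
        w, hc, hKc,
      fun k => qwc _ _ _ _ _ _ _, fun k f z φ h => rep_QW f z φ h, ?_, ?_⟩
    · intro f hf z _ hz
      refine gew (Run7.h561.EC.Sq (4 * H) w) M' (‖w‖ + 2 * (4 * H)) B NN w f z ?_ ?_ ?_ hM' hB hz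
      · unfold Run7.h561.EC.Sq
        refine IsOpen.and ?_ ?_
        · exact isOpen_lt (by fun_prop) continuous_const
        · exact isOpen_lt (by fun_prop) continuous_const
      · unfold Run7.h561.EC.Sq
        rw [Set.mem_ofPred_eq, sub_self, sub_self, abs_zero]
        exact ⟨by linarith, by linarith⟩
      · rintro ⟨s, hs⟩
        have h1 := hf.1.1 s
        rw [hs, dist_self] at h1
        linarith
    · intro ε' hε'
      obtain ⟨δ0, hδ0, hbad⟩ := hcore ε' hε'
      have hL : Sc (9 / 2 * H) w ⊆ D := by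
        rintro z ⟨h1, h2⟩
        exact hSq ⟨by linarith, by linarith⟩
      have hLc := Sc_compact (9 / 2 * H) w
      have hev : ∀ᶠ i in atTop, s.δ i < min δ0 (4 * H / 100) :=
        (tendsto_order.1 s.lim).2 _ (by positivity)
      filter_upwards [hev, hag _ hL hLc, hγ _ hL hLc] with i hi hagi hγi
      have hi0 : s.δ i < δ0 := hi.trans_le (min_le_left _ _)
      have hi2 : s.δ i ≤ 4 * H / 100 := hi.le.trans (min_le_right _ _)
      have hδi : 0 < s.δ i := s.pos i
      obtain ⟨Bad, hB1, hB2⟩ := hbad (s.δ i) hδi hi0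
      have hx : 100 ≤ 4 * H / s.δ i := by
        rw [le_div_iff₀ hδi]
        linarith
      set e : ℝ := s.δ i with he
      have hopen : IsOpen {γ : Curve | γ.path ∈ EvN d H η m w ∧ ¬ Good t ε' c
          (LG.AA (Metric.closedBall (0 : ℂ) (‖w‖ + 2 * (4 * H)))
            (fun k => QW (Run7.h561.EC.Sq (4 * H) w)ᶜ M' (‖w‖ + 2 * (4 * H)) (1 / ((k : ℝ) + 1)) B
              (NN k) w) ε' γ.path)} := by
        refine IsOpen.inter (open_EvN d H η m w) ?_
        have h2 := closed_curve (LG.isClosed_good_AA (t := t) (δ := ε') (c := c) (e := ε')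
          (fun k => qwc (Run7.h561.EC.Sq (4 * H) w)ᶜ M' (‖w‖ + 2 * (4 * H)) (1 / ((k : ℝ) + 1)) B
            (NN k) w) hKc)
          (fun f φ hf => Good.mono hf (AA_rep (fun k f z φ h => rep_QW f z φ h) ε' f φ))
        exact h2.isOpen_compl
      change (lawE (s.E i) (fun F => tc (os e (s.o i)) (γ i F)) : Measure Curve)
          {γ : Curve | γ.path ∈ EvN d H η m w ∧
          ¬ Good t ε' c (LG.AA (Metric.closedBall (0 : ℂ) (‖w‖ + 2 * (4 * H)))
            (fun k => QW (Run7.h561.EC.Sq (4 * H) w)ᶜ M' (‖w‖ + 2 * (4 * H)) (1 / ((k : ℝ) + 1)) B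
              (NN k) w) ε' γ.path)} ≤ ε
      rw [lawE_apply _ _ hopen.measurableSet]
      refine le_trans (ENNReal.ofReal_le_ofReal ?_) hε2
      set p : ℤ × ℤ := ((ks e (s.o i)).1, (ks e (s.o i)).2 - 1) with hp
      -- the box
      have hsub : RE ((bq w H e).1 - p.1) ((bq w H e).1 - p.1 + ((2 * bn H e : ℕ) : ℤ))
          ((bq w H e).2 - p.2) ((bq w H e).2 - p.2 + ((2 * bn H e : ℕ) : ℤ)) ⊆ s.E i := by
        intro g hg
        rw [mem_RE] at hg
        obtain ⟨g1, g2⟩ := hg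
        have key : ∀ v : Vtx, inR ((bq w H e).1 - p.1)
            ((bq w H e).1 - p.1 + ((2 * bn H e : ℕ) : ℤ)) ((bq w H e).2 - p.2)
            ((bq w H e).2 - p.2 + ((2 * bn H e : ℕ) : ℤ)) v → zp e (s.o i) v ∈ Sc (9 / 2 * H) w := by
          intro v hv
          have hv' : inR (bq w H e).1 ((bq w H e).1 + (2 * bn H e : ℕ)) (bq w H e).2
              ((bq w H e).2 + (2 * bn H e : ℕ)) (shv p v) := by
            unfold inR shv at *
            simp only at *
            omega
          obtain ⟨h1, h2⟩ := in_Sc (o := s.o i) hδi hx (v := v) hv'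
          exact ⟨by linarith, by linarith⟩
        exact (hagi g (key _ g1) (key _ g2)).1
      refine le_trans ?_ hB1
      rw [← pr_Sub (q := ((bq w H e).1 - p.1, (bq w H e).2 - p.2)) hsub Bad]
      refine Pr_mono okhalf fun F hF hbadF => ?_
      by_contra hcon
      obtain ⟨hb1, hb2⟩ := hbadF
      apply hb2
      obtain ⟨σ0, T, hcrv, hnb⟩ := itf_step hδi (o := s.o i) hH hx (hγi F hF)
        (fun g h1 h2 => (hagi g h1 h2).2 F hF) hb1.2
      refine hB2 _ _ _ (Fs p F) _ hcrv hnb hb1.1 ?_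
      rw [Sub_Fs]
      exact hcon
  filter_upwards [ae_all_iff.2 hall] with p hp hpe
  obtain ⟨n, hn⟩ := EvO_margin hpe.1
  exact hp n ⟨hn, hpe.2⟩

end Run7.h165.GI
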