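import Pool.Agent.Run7.h561.EC.P_ALL
import Pool.Agent.Run7.h165.GI.Hit3
import Pool.Agent.Run7.h165.GI.Dbl
import Pool.Agent.Run7.h165.EC.Mlf
import Pool.Agent.Run7.h165.EC.Axi
import Pool.Agent.Run7.h165.EC.Qwc
import Pool.Agent.Run7.h165.EC.Gew
import Pool.Agent.W424.KI.Fin
import Pool.Agent.W500.PD.UO
import Pool.Agent.W347.DPAA
import Pool.Agent.W571.DPad

/-! # Interfaces in any domain, with any boundary condition -/

set_option autoImplicit false

namespace Run7.h165.GI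

open H974 H342L H342T MeasureTheory Filter Topology
open Run7.h561.CC (Seq)
open scoped ENNReal

/-- **GI** -/
theorem t_GI {s : Seq} {D : Set ℂ} (hD : IsOpen D) (hag : s.Agree D)
    {γ : ℕ → Finset Edg → Curve} (hγ : Itf s D γ) {μ : ProbabilityMeasure Curve}
    (hμ : Tendsto (law s γ) atTop (𝓝 μ)) :
    ∀ᵐ c : Curve ∂(μ : Measure Curve), ∀ s t : unitInterval,
      (∃ u ∈ Set.Icc s t, c.path u ≠ c.path s) → ∀ U : Set ℂ, IsOpen U → ∀ w z : ℂ, z ∈ U →
      z ∈ D →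
      z ∈ frontier (connectedComponentIn (U \ c.path '' Set.Icc s t) w) → ∀ ρ : ℝ, 0 < ρ →
        dimH (frontier (connectedComponentIn (U \ c.path '' Set.Icc s t) w) ∩
          (U ∩ D ∩ Metric.ball z ρ)) = 4 / 3 := by
  refine t_FIN hD (t_HITG Run7.h561.EC.a_LOC4 Run7.h561.EC.a_DUA Pool.Agent.Y989.FR.CHN.t_CHN
    Run7.h165.EC.t_QWC Run7.h165.EC.t_GEW hag hγ hμ) ?_ ?_ Run7.h165.EC.mlf Run7.h165.EC.t_AXI
  · filter_upwards [t_ACC Pool.Agent.W424.KI.u3 hD hag hγ hμ Set.univ] with c hc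
    rwa [Set.inter_univ, Run7.h165.CC.two_sub] at hc
  · exact t_DBL Pool.Agent.W500.PD.uo Pool.Agent.W347.DPAA.aa
      (Pool.Agent.W571.DPad.ad Pool.Agent.W347.DPAA.aa) hD hag hγ hμ

end Run7.h165.GI
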