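import Pool.Agent.Run7.h561.CC.Stm
import Pool.Agent.H342R3.Tig.POL
import Pool.Agent.H342R3.Lim.Law

/-!
# Interfaces in any domain, with any boundary condition: definitions (nothing is assumed)
-/

set_option autoImplicit false

namespace Run7.h165.GI

open H974 H12S Finset H984P H342L H342T MeasureTheory Filter Topology
open Run7.h561.CC (Seq lawE)
open Pool.Agent.TH990.FU (zp)

/-- The states which the tracing rule visits after `σ`, or from which it visits `σ`. -/
def Full (G : Set Edg) (σ : St) : Set St := {τ | ∃ t, orb G σ t = τ ∨ orb G τ t = σ}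

/-- `c` is an interface path of the configuration `G`: the polygonal path with the vertices of the
states `σ, nxt σ, …` (`N` steps, without repetition of a state before the last one), and all visits
of the set `L` by the interface of `σ` are on this path. -/
def IsItf (δ : ℝ) (o : ℂ) (G : Set Edg) (L : Set ℂ) (c : Curve) : Prop :=
  ∃ (σ : St) (N : ℕ), 0 < N ∧ (∀ i j, i < j → j < N → orb G σ i ≠ orb G σ j) ∧
    c.path = poly (fun j => zp δ o (orb G σ j).1) N ∧
    ∀ τ ∈ Full G σ, zp δ o τ.1 ∈ L → ∃ k < N, orb G σ k = τ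

/-- `γ` chooses interfaces, complete in `D`. -/
def Itf (s : Seq) (D : Set ℂ) (γ : ℕ → Finset Edg → Curve) : Prop :=
  ∀ L ⊆ D, IsCompact L → ∀ᶠ n in atTop, ∀ F ⊆ s.E n,
    IsItf (s.δ n) (s.o n) (s.G n F) L (γ n F)

/-- The law of the interface. -/
noncomputable def law (s : Seq) (γ : ℕ → Finset Edg → Curve) (n : ℕ) : ProbabilityMeasure Curve :=
  lawE (s.E n) (γ n)

end Run7.h165.GI
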