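import Pool.Agent.Run7.h561.EC.P_J6
import Pool.Agent.Run7.h165.GI.Acc

/-! # HIT for interfaces in any domain, part 1: closeness to the medial path -/

set_option autoImplicit false

namespace Run7.h165.GI

open H974 H12S Finset H984P H984N H342P H342L H342T Run7.h561 Run7.h561.EC
open Pool.Agent.W822.PD
open Pool.Agent.TH990.FU (zp)

/-- Position of a vertex in the lattice translated by `k` steps. -/
noncomputable def zk (δ : ℝ) (k : ℤ × ℤ) (v : Vtx) : ℂ := ⟨δ * (v.1 + k.1), δ * (v.2 + k.2)⟩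

/-- Medial position in the lattice translated by `k` steps. -/
noncomputable def mk (δ : ℝ) (k : ℤ × ℤ) (σ : St) : ℂ := pos δ (shs (k.1, k.2 - 1) σ)

theorem mk_near {δ : ℝ} (hδ : 0 < δ) (q : ℤ × ℤ) {E : Set Edg} (σ : St) {θ : ℝ} (h0 : 0 ≤ θ)
    (h1 : θ ≤ 1) :
    (θ ≤ 1 / 2 → dist (zk δ q σ.1 + (θ : ℂ) * (zk δ q (nxt E σ).1 - zk δ q σ.1)) (mk δ q σ) ≤
      δ / 2) ∧
    (1 / 2 ≤ θ → dist (zk δ q σ.1 + (θ : ℂ) * (zk δ q (nxt E σ).1 - zk δ q σ.1))
      (mk δ q (nxt E σ)) ≤ δ / 2) := by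
  have key : ∀ (a b : ℂ), (∃ c : ℝ, |c| ≤ 1 / 4 ∧ a.re - b.re = δ * c) →
      (∃ c : ℝ, |c| ≤ 1 / 4 ∧ a.im - b.im = δ * c) → dist a b ≤ δ / 2 := by
    rintro a b ⟨c, hc, hc'⟩ ⟨e, he, he'⟩
    refine (H984N.ML.dist_le_of (a := δ * (1 / 4)) (b := δ * (1 / 4)) ?_ ?_).trans (by linarith)
    · rw [hc', abs_mul, abs_of_pos hδ]
      exact mul_le_mul_of_nonneg_left hc hδ.le
    · rw [he', abs_mul, abs_of_pos hδ]
      exact mul_le_mul_of_nonneg_left he hδ.le
  unfold zk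
  obtain ⟨k1, k2⟩ := q
  by_cases h : ae σ ∈ E
  · rw [nxt_open h]
    obtain ⟨⟨x, y⟩, k⟩ := σ
    constructor
    · intro hθ
      cases k
      · refine key _ _ ⟨θ - 1 / 4, by rw [abs_le]; constructor <;> linarith, ?_⟩
          ⟨-(1 / 4), by norm_num [abs_le], ?_⟩ <;> simp [mk, pos, shs, shv, mv] <;> ring
      · refine key _ _ ⟨1 / 4, by norm_num [abs_le], ?_⟩
          ⟨θ - 1 / 4, by rw [abs_le]; constructor <;> linarith, ?_⟩ <;>
          simp [mk, pos, shs, shv, mv] <;> ring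
      · refine key _ _ ⟨1 / 4 - θ, by rw [abs_le]; constructor <;> linarith, ?_⟩
          ⟨1 / 4, by norm_num [abs_le], ?_⟩ <;> simp [mk, pos, shs, shv, mv] <;> ring
      · refine key _ _ ⟨-(1 / 4), by norm_num [abs_le], ?_⟩
          ⟨1 / 4 - θ, by rw [abs_le]; constructor <;> linarith, ?_⟩ <;>
          simp [mk, pos, shs, shv, mv] <;> ring
    · intro hθ
      cases k
      · refine key _ _ ⟨θ - 3 / 4, by rw [abs_le]; constructor <;> linarith, ?_⟩
          ⟨-(1 / 4), by norm_num [abs_le], ?_⟩ <;> simp [mk, pos, shs, shv, mv] <;> ring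
      · refine key _ _ ⟨1 / 4, by norm_num [abs_le], ?_⟩
          ⟨θ - 3 / 4, by rw [abs_le]; constructor <;> linarith, ?_⟩ <;>
          simp [mk, pos, shs, shv, mv] <;> ring
      · refine key _ _ ⟨3 / 4 - θ, by rw [abs_le]; constructor <;> linarith, ?_⟩
          ⟨1 / 4, by norm_num [abs_le], ?_⟩ <;> simp [mk, pos, shs, shv, mv] <;> ring
      · refine key _ _ ⟨-(1 / 4), by norm_num [abs_le], ?_⟩
          ⟨3 / 4 - θ, by rw [abs_le]; constructor <;> linarith, ?_⟩ <;>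
          simp [mk, pos, shs, shv, mv] <;> ring
  · rw [nxt_closed h]
    have hv : (rt σ).1 = σ.1 := by
      obtain ⟨v, k⟩ := σ
      cases k <;> simp
    rw [hv, sub_self, mul_zero, add_zero]
    have hall : ∀ τ : St, dist (⟨δ * (τ.1.1 + k1), δ * (τ.1.2 + k2)⟩ : ℂ) (mk δ (k1, k2) τ) ≤
        δ / 2 := by
      rintro ⟨⟨x, y⟩, k⟩
      cases k
      · refine key _ _ ⟨-(1 / 4), by norm_num [abs_le], ?_⟩
          ⟨-(1 / 4), by norm_num [abs_le], ?_⟩ <;> simp [mk, pos, shs, shv] <;> ring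
      · refine key _ _ ⟨1 / 4, by norm_num [abs_le], ?_⟩
          ⟨-(1 / 4), by norm_num [abs_le], ?_⟩ <;> simp [mk, pos, shs, shv] <;> ring
      · refine key _ _ ⟨1 / 4, by norm_num [abs_le], ?_⟩
          ⟨1 / 4, by norm_num [abs_le], ?_⟩ <;> simp [mk, pos, shs, shv] <;> ring
      · refine key _ _ ⟨-(1 / 4), by norm_num [abs_le], ?_⟩
          ⟨1 / 4, by norm_num [abs_le], ?_⟩ <;> simp [mk, pos, shs, shv] <;> ring
    refine ⟨fun _ => hall σ, fun _ => ?_⟩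
    have := hall (rt σ)
    rwa [hv] at this

/-- The polygonal path is close to the medial path. -/
theorem poly_mk {δ : ℝ} (hδ : 0 < δ) (q : ℤ × ℤ) {E : Set Edg} (σ : St) {N : ℕ} (hN : 0 < N)
    (s : unitInterval) :
    dist (poly (fun j => zk δ q (orb E σ j).1) N s) (mk δ q (orb E σ (rd N s))) ≤ δ / 2 := by
  obtain ⟨k, hk, h1, h2⟩ := pl_exists_seg hN s
  rw [POL_formula _ N k hk s (by rw [mul_comm]; exact h1) (by rw [mul_comm]; exact h2)]
  have h3 := mk_near hδ q (E := E) (orb E σ k) (θ := (N : ℝ) * (s : ℝ) - k)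
    (by rw [mul_comm]; linarith) (by rw [mul_comm]; linarith)
  rw [← orb_succ] at h3
  have h0 : (0 : ℝ) ≤ (s : ℝ) * N := mul_nonneg s.2.1 (Nat.cast_nonneg N)
  rcases lt_or_ge ((N : ℝ) * (s : ℝ) - k) (1 / 2) with h | h
  · have e : rd N s = k := by
      unfold rd
      rw [Nat.floor_eq_iff (by linarith)]
      rw [mul_comm] at h
      constructor <;> linarith
    rw [e]
    exact h3.1 h.le
  · have e : rd N s = k + 1 := by
      unfold rd
      rw [Nat.floor_eq_iff (by linarith)]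
      rw [mul_comm] at h
      push_cast
      constructor <;> linarith
    rw [e]
    exact h3.2 h

theorem zk_mk {δ : ℝ} (hδ : 0 < δ) (q : ℤ × ℤ) (σ : St) : dist (zk δ q σ.1) (mk δ q σ) ≤ δ / 2 := by
  have := (mk_near hδ q (E := ∅) σ (θ := 0) le_rfl zero_le_one).1 (by norm_num)
  simpa using this

theorem hnodeG {N : ℕ} (hN : 0 < N) : ∀ r ≤ N, ∃ s : unitInterval, (s : ℝ) * N = r := by
  have hNr : (0 : ℝ) < N := by exact_mod_cast hN
  intro r hr
  refine ⟨⟨(r : ℝ) / N, by positivity, ?_⟩, ?_⟩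
  · rw [div_le_one hNr]
    exact_mod_cast hr
  · show (r : ℝ) / N * N = r
    field_simp

/-- between two times, the nodes -/
theorem mid {δ : ℝ} (hδ : 0 < δ) (q : ℤ × ℤ) {G : Set Edg} (σ : St) {N : ℕ} (hN : 0 < N)
    {s s' : unitInterval} (hs : s ≤ s') {r : ℕ} (h1 : rd N s ≤ r) (h2 : r ≤ rd N s') :
    ∃ u : unitInterval, s ≤ u ∧ u ≤ s' ∧
      dist (poly (fun j => zk δ q (orb G σ j).1) N u) (mk δ q (orb G σ r)) ≤ δ / 2 := by
  have hNr : (0 : ℝ) < N := by exact_mod_cast hN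
  have i2 := rd_le (N := N) s'
  rcases Nat.lt_or_ge (rd N s) r with h3 | h3
  · rcases Nat.lt_or_ge r (rd N s') with h4 | h4
    · obtain ⟨u, hu⟩ := hnodeG hN r (by omega)
      have f1 : (s : ℝ) * N + 1 / 2 < (rd N s : ℝ) + 1 := by
        unfold rd
        exact Nat.lt_floor_add_one _
      have f2 : (rd N s' : ℝ) ≤ (s' : ℝ) * N + 1 / 2 := by
        unfold rd
        apply Nat.floor_le
        have : (0 : ℝ) ≤ (s' : ℝ) * N := mul_nonneg s'.2.1 (Nat.cast_nonneg N)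
        linarith
      have f3 : (rd N s : ℝ) + 1 ≤ r := by exact_mod_cast h3
      have f4 : (r : ℝ) + 1 ≤ rd N s' := by exact_mod_cast h4
      refine ⟨u, ?_, ?_, ?_⟩
      · show (s : ℝ) ≤ u
        have : (s : ℝ) * N ≤ u * N := by linarith
        exact le_of_mul_le_mul_right this hNr
      · show (u : ℝ) ≤ s'
        have : (u : ℝ) * N ≤ s' * N := by linarith
        exact le_of_mul_le_mul_right this hNr
      · rw [Run7.h561.EC.poly_node hN _ (by omega) u hu]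
        exact zk_mk hδ q _
    · have : r = rd N s' := by omega
      rw [this]
      exact ⟨s', hs, le_rfl, poly_mk hδ q σ hN s'⟩
  · have : r = rd N s := by omega
    rw [this]
    exact ⟨s, le_rfl, hs, poly_mk hδ q σ hN s⟩

theorem orb_mk {δ : ℝ} (q : ℤ × ℤ) {G E : Set Edg}
    (hE : ∀ e, e ∈ G ↔ sh (q.1, q.2 - 1) e ∈ E) (σ : St) (k : ℕ) :
    pos δ (orb E (shs (q.1, q.2 - 1) σ) k) = mk δ q (orb G σ k) := by
  rw [orb_shs hE]
  rfl

/-- **The curve**, closed case. -/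
theorem crv_A {δ : ℝ} (hδ : 0 < δ) (q : ℤ × ℤ) {G E : Set Edg}
    (hE : ∀ e, e ∈ G ↔ sh (q.1, q.2 - 1) e ∈ E)
    {σ : St} {N : ℕ} (hN : 0 < N) (hper : orb G σ N = σ) {k0 : ℕ} (hk0 : k0 ≤ N) :
    CrvA (poly (fun j => zk δ q (orb G σ j).1) N) δ (2 * N)
      (fun k => pos δ (orb E (shs (q.1, q.2 - 1) (orb G σ k0)) k)) := by
  have horb : ∀ k, pos δ (orb E (shs (q.1, q.2 - 1) (orb G σ k0)) k) =
      mk δ q (orb G σ (k + k0)) := by
    intro k
    rw [orb_mk q hE, ← orb_add]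
  refine ⟨fun k _ => ?_, fun s s' hs => ?_⟩
  · rw [horb]
    have hr := Nat.mod_lt (k + k0) hN
    obtain ⟨s, hs⟩ := hnodeG hN ((k + k0) % N) hr.le
    refine ⟨s, ?_⟩
    rw [Run7.h561.EC.poly_node hN _ hr.le s hs, orb_mod hper]
    exact zk_mk hδ q _
  · have i1 := rd_mono (N := N) hs
    have i2 := rd_le (N := N) s'
    have hidx : ∀ r, orb G σ (r + (N - k0) + k0) = orb G σ r := by
      intro r
      rw [show r + (N - k0) + k0 = r + N by omega, orb_per hper]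
    refine ⟨rd N s + (N - k0), rd N s' + (N - k0), by omega, by omega, ?_, ?_, ?_⟩
    · rw [horb, hidx]
      exact poly_mk hδ q σ hN s
    · rw [horb, hidx]
      exact poly_mk hδ q σ hN s'
    · intro k h1 h2
      obtain ⟨r, rfl⟩ : ∃ r, k = r + (N - k0) := ⟨k - (N - k0), by omega⟩
      rw [horb, hidx]
      exact mid hδ q σ hN hs (by omega) (by omega)

/-- **The curve**, general case. -/
theorem crv_B {δ : ℝ} (hδ : 0 < δ) (q : ℤ × ℤ) {G E : Set Edg}
    (hE : ∀ e, e ∈ G ↔ sh (q.1, q.2 - 1) e ∈ E) {σ : St} {N : ℕ} (hN : 0 < N) :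
    CrvA (poly (fun j => zk δ q (orb G σ j).1) N) δ N
      (fun k => pos δ (orb E (shs (q.1, q.2 - 1) σ) k)) := by
  refine ⟨fun k hk => ?_, fun s s' hs => ?_⟩
  · rw [orb_mk q hE]
    obtain ⟨s, hs⟩ := hnodeG hN k hk
    refine ⟨s, ?_⟩
    rw [Run7.h561.EC.poly_node hN _ hk s hs]
    exact zk_mk hδ q _
  · refine ⟨rd N s, rd N s', rd_mono hs, rd_le s', ?_, ?_, ?_⟩
    · rw [orb_mk q hE]
      exact poly_mk hδ q σ hN s
    · rw [orb_mk q hE]
      exact poly_mk hδ q σ hN s'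
    · intro k h1 h2
      rw [orb_mk q hE]
      exact mid hδ q σ hN hs h1 h2

end Run7.h165.GI
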