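import Pool.Agent.Run7.h165.GI.Hit1

/-! # HIT for interfaces in any domain, part 2: the interface near a box -/

set_option autoImplicit false

namespace Run7.h165.GI

open H974 H12S Finset H984P H984N H342P H342L H342T Run7.h561 Run7.h561.EC
open Pool.Agent.W822.PD
open Pool.Agent.TH990.FU (zp)

/-- The configuration, translated. -/
def Es (p : ℤ × ℤ) (G : Set Edg) : Set Edg := {e | sh (-p.1, -p.2) e ∈ G}

/-- The sampled edges, translated. -/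
noncomputable def Fs (p : ℤ × ℤ) (F : Finset Edg) : Finset Edg := F.image (sh p)

theorem sh_l (p : ℤ × ℤ) (e : Edg) : sh (-p.1, -p.2) (sh p e) = e := by
  obtain ⟨x, y, b⟩ := e
  simp [sh]

theorem sh_r (p : ℤ × ℤ) (e : Edg) : sh p (sh (-p.1, -p.2) e) = e := by
  obtain ⟨x, y, b⟩ := e
  simp [sh]

theorem mem_Es {p : ℤ × ℤ} {G : Set Edg} (e : Edg) : e ∈ G ↔ sh p e ∈ Es p G := by
  unfold Es
  rw [Set.mem_ofPred_eq, sh_l]

theorem mem_Fs {p : ℤ × ℤ} {F : Finset Edg} (e : Edg) : e ∈ F ↔ sh p e ∈ Fs p F := by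
  unfold Fs
  rw [Finset.mem_image]
  constructor
  · intro h
    exact ⟨e, h, rfl⟩
  · rintro ⟨g, hg, h⟩
    have := congrArg (sh (-p.1, -p.2)) h
    rw [sh_l, sh_l] at this
    rwa [← this]

theorem Sub_Fs {p : ℤ × ℤ} {F : Finset Edg} {q : ℤ × ℤ} {n : ℕ} :
    Sub (Fs p F) q n = Sub F (q.1 - p.1, q.2 - p.2) n := by
  ext e
  rw [mem_Sub, mem_Sub]
  have h : sh q e = sh p (sh (q.1 - p.1, q.2 - p.2) e) := by
    obtain ⟨x, y, b⟩ := e
    simp only [sh, Prod.mk.injEq]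
    refine ⟨by ring, by ring, trivial⟩
  rw [h, ← mem_Fs]

theorem shs_l (p : ℤ × ℤ) (σ : St) : shs (-p.1, -p.2) (shs p σ) = σ := by
  rw [shs_shs]
  simp only [neg_add_cancel]
  exact shs_zero σ

theorem shs_r (p : ℤ × ℤ) (σ : St) : shs p (shs (-p.1, -p.2) σ) = σ := by
  rw [shs_shs]
  simp only [add_neg_cancel]
  exact shs_zero σ

/-- The closed square. -/
def Sc (r : ℝ) (w : ℂ) : Set ℂ := {z | |z.re - w.re| ≤ r ∧ |z.im - w.im| ≤ r}

/-- translation of the polygonal path -/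
theorem poly_add (f : ℕ → ℂ) (a : ℂ) (N : ℕ) (s : unitInterval) :
    poly (fun j => f j + a) N s = poly f N s + a := by
  show (f 0 + a) + ∑ j ∈ Finset.range N,
    ((max 0 (min 1 ((N : ℝ) * (s : ℝ) - j)) : ℝ) : ℂ) * (f (j + 1) + a - (f j + a)) =
    (f 0 + ∑ j ∈ Finset.range N,
    ((max 0 (min 1 ((N : ℝ) * (s : ℝ) - j)) : ℝ) : ℂ) * (f (j + 1) - f j)) + a
  simp only [add_sub_add_right_eq_sub]
  ring

/-- the number of steps of the translation -/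
noncomputable def ks (δ : ℝ) (o : ℂ) : ℤ × ℤ := (⌊o.re / δ⌋, ⌊o.im / δ⌋)

/-- the rest of the offset -/
noncomputable def os (δ : ℝ) (o : ℂ) : ℂ :=
  ⟨o.re - δ * ⌊o.re / δ⌋, o.im - δ * ⌊o.im / δ⌋⟩

theorem os_bd {δ : ℝ} (hδ : 0 < δ) (o : ℂ) :
    (0 ≤ (os δ o).re ∧ (os δ o).re ≤ δ) ∧ 0 ≤ (os δ o).im ∧ (os δ o).im ≤ δ := by
  have key : ∀ y : ℝ, 0 ≤ y - δ * ⌊y / δ⌋ ∧ y - δ * ⌊y / δ⌋ ≤ δ := by
    intro y
    have h1 := Int.floor_le (y / δ)
    have h2 := Int.lt_floor_add_one (y / δ)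
    rw [le_div_iff₀ hδ] at h1
    rw [div_lt_iff₀ hδ] at h2
    constructor <;> linarith
  exact ⟨key _, key _⟩

theorem zp_zk {δ : ℝ} (o : ℂ) (v : Vtx) : zp δ o v = zk δ (ks δ o) v + os δ o := by
  apply Complex.ext
  · show o.re + δ * v.1 = δ * (v.1 + (⌊o.re / δ⌋ : ℤ)) + (o.re - δ * (⌊o.re / δ⌋ : ℤ))
    ring
  · show o.im + δ * v.2 = δ * (v.2 + (⌊o.im / δ⌋ : ℤ)) + (o.im - δ * (⌊o.im / δ⌋ : ℤ))
    ring

/-- The translated curve. -/
noncomputable def tc (a : ℂ) (c : Curve) : Curve := ⟨⟨fun s => c.path s - a, by fun_prop⟩⟩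

theorem tc_path (a : ℂ) (c : Curve) (s : unitInterval) : (tc a c).path s = c.path s - a := rfl

/-- a vertex of the box -/
theorem in_Sc {δ : ℝ} (hδ : 0 < δ) {o w : ℂ} {H : ℝ} (hx : 100 ≤ 4 * H / δ) {v : Vtx}
    (h : inR (bq w H δ).1 ((bq w H δ).1 + (2 * bn H δ : ℕ)) (bq w H δ).2
      ((bq w H δ).2 + (2 * bn H δ : ℕ)) (shv ((ks δ o).1, (ks δ o).2 - 1) v)) :
    |(zp δ o v).re - w.re| ≤ 9 / 2 * H - 2 * δ ∧ |(zp δ o v).im - w.im| ≤ 9 / 2 * H - 2 * δ := by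
  obtain ⟨p1, p2, p3, p4⟩ := box_pos (w := w) (H := H) hδ hx
  obtain ⟨⟨a1, a2⟩, a3, a4⟩ := h
  simp only [shv] at a1 a2 a3 a4
  obtain ⟨⟨b1, b2⟩, b3, b4⟩ := os_bd hδ o
  have c1 : ((bq w H δ).1 : ℝ) ≤ v.1 + (ks δ o).1 := by exact_mod_cast a1
  have c2 : (v.1 : ℝ) + (ks δ o).1 ≤ (bq w H δ).1 + ((2 * bn H δ : ℕ) : ℝ) := by exact_mod_cast a2
  have c3 : ((bq w H δ).2 : ℝ) ≤ v.2 + ((ks δ o).2 - 1) := by exact_mod_cast a3
  have c4 : (v.2 : ℝ) + ((ks δ o).2 - 1) ≤ (bq w H δ).2 + ((2 * bn H δ : ℕ) : ℝ) := by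
    exact_mod_cast a4
  have q1 : (w.re - 4 * H) / δ < v.1 + (ks δ o).1 := by linarith
  have q2 : (v.1 : ℝ) + (ks δ o).1 < (w.re + 4 * H) / δ := by linarith
  have q3 : (w.im - 4 * H) / δ < v.2 + (ks δ o).2 := by linarith
  have q4 : (v.2 : ℝ) + (ks δ o).2 < (w.im + 4 * H) / δ := by linarith
  rw [div_lt_iff₀ hδ] at q1 q3
  rw [lt_div_iff₀ hδ] at q2 q4
  rw [le_div_iff₀ hδ] at hx
  rw [zp_zk]
  have e1 : (zk δ (ks δ o) v + os δ o).re = δ * (v.1 + (ks δ o).1) + (os δ o).re := rfl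
  have e2 : (zk δ (ks δ o) v + os δ o).im = δ * (v.2 + (ks δ o).2) + (os δ o).im := rfl
  rw [e1, e2]
  constructor
  · rw [abs_le]; constructor <;> linarith
  · rw [abs_le]; constructor <;> linarith

theorem out_of {q : ℤ × ℤ} {n : ℕ} {σ : St}
    (h : ¬ inR q.1 (q.1 + n) q.2 (q.2 + n) σ.1) :
    rel q σ.1 ∈ FrB n ∧ rel q (face σ) ∈ FrB (n - 1) := by
  have hout : σ.1.1 < q.1 ∨ q.1 + n < σ.1.1 ∨ σ.1.2 < q.2 ∨ q.2 + n < σ.1.2 := by
    unfold inR at h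
    by_contra hcon
    apply h
    push Not at hcon
    omega
  constructor
  · unfold rel FrB
    simp only [Set.mem_setOf_eq]
    omega
  · unfold rel FrB
    simp only [Set.mem_setOf_eq]
    obtain ⟨⟨x, y⟩, k⟩ := σ
    simp only at hout
    cases k <;> simp only [face] <;> omega

/-- **The interface near the box.** -/
theorem itf_step {δ : ℝ} (hδ : 0 < δ) {o w : ℂ} {H : ℝ} (hH : 0 < H) (hx : 100 ≤ 4 * H / δ)
    {G : Set Edg} {F : Finset Edg} {c : Curve} (hc : IsItf δ o G (Sc (9 / 2 * H) w) c)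
    (hG : ∀ e : Edg, zp δ o (src e) ∈ Sc (9 / 2 * H) w → zp δ o (tgt e) ∈ Sc (9 / 2 * H) w →
      (e ∈ G ↔ e ∈ F))
    (hfar : ∃ s, 32 * H < dist w ((tc (os δ o) c).path s)) :
    ∃ (σ0 : St) (T : ℕ), CrvA (tc (os δ o) c).path δ T
      (fun k => pos δ (orb (Es ((ks δ o).1, (ks δ o).2 - 1) G) σ0 k)) ∧
      Nbh (Es ((ks δ o).1, (ks δ o).2 - 1) G) σ0 T (Fs ((ks δ o).1, (ks δ o).2 - 1) F)
        (bq w H δ) (2 * bn H δ) := by
  obtain ⟨σ, N, hN, hdis, hpath, hfull⟩ := hc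
  obtain ⟨s, hs⟩ := hfar
  set k : ℤ × ℤ := ks δ o with hk
  set p : ℤ × ℤ := (k.1, k.2 - 1) with hp
  have hx' : 100 * δ ≤ 4 * H := by rwa [le_div_iff₀ hδ] at hx
  have hE : ∀ e, e ∈ G ↔ sh (k.1, k.2 - 1) e ∈ Es p G := fun e => mem_Es e
  have hf : (tc (os δ o) c).path = poly (fun j => zk δ k (orb G σ j).1) N := by
    ext u
    rw [tc_path, hpath]
    have : (fun j => zp δ o (orb G σ j).1) = fun j => zk δ k (orb G σ j).1 + os δ o := by
      funext j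
      rw [zp_zk]
    rw [this, poly_add]
    ring
  rw [hf] at hs ⊢
  -- states of the full orbit in the box
  have hinv : ∀ τ, τ ∈ {τ | ∃ ρ ∈ Full G σ, shs p ρ = τ} ↔
      nxt (Es p G) τ ∈ {τ | ∃ ρ ∈ Full G σ, shs p ρ = τ} := by
    intro τ
    constructor
    · rintro ⟨ρ, hρ, rfl⟩
      exact ⟨nxt G ρ, (full_inv G σ ρ).1 hρ, (nxt_shs hE ρ).symm⟩
    · rintro ⟨ρ, hρ, h⟩
      refine ⟨shs (-p.1, -p.2) τ, ?_, shs_r p τ⟩
      rw [full_inv]
      have h1 : nxt (Es p G) τ = shs p (nxt G (shs (-p.1, -p.2) τ)) := by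
        conv_lhs => rw [← shs_r p τ]
        exact nxt_shs hE _
      rw [h1] at h
      have h2 := congrArg (shs (-p.1, -p.2)) h
      rw [shs_l, shs_l] at h2
      rw [← h2]
      exact hρ
  have hvis : ∀ ρ ∈ Full G σ, inR (bq w H δ).1 ((bq w H δ).1 + (2 * bn H δ : ℕ)) (bq w H δ).2
      ((bq w H δ).2 + (2 * bn H δ : ℕ)) (shs p ρ).1 → ∃ j < N, orb G σ j = ρ := by
    intro ρ hρ h
    obtain ⟨h1, h2⟩ := in_Sc (o := o) hδ hx (v := ρ.1) h
    exact hfull ρ hρ ⟨by linarith, by linarith⟩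
  have hloc : ∀ e : Edg, inR (bq w H δ).1 ((bq w H δ).1 + (2 * bn H δ : ℕ)) (bq w H δ).2
      ((bq w H δ).2 + (2 * bn H δ : ℕ)) (src e) → inR (bq w H δ).1
      ((bq w H δ).1 + (2 * bn H δ : ℕ)) (bq w H δ).2 ((bq w H δ).2 + (2 * bn H δ : ℕ)) (tgt e) →
      (e ∈ Es p G ↔ e ∈ Fs p F) := by
    intro e h1 h2
    obtain ⟨g, rfl⟩ : ∃ g, sh p g = e := ⟨sh (-p.1, -p.2) e, sh_r p e⟩
    rw [← mem_Es, ← mem_Fs]
    rw [src_sh] at h1
    rw [tgt_sh] at h2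
    obtain ⟨a1, a2⟩ := in_Sc (o := o) hδ hx h1
    obtain ⟨b1, b2⟩ := in_Sc (o := o) hδ hx h2
    exact hG g ⟨by linarith, by linarith⟩ ⟨by linarith, by linarith⟩
  by_cases hper : orb G σ N = σ
  · -- closed interface
    have h1 := poly_mk hδ k (E := G) σ hN s
    have h2 := zk_mk hδ k (orb G σ (rd N s))
    have hout : ¬ inR (bq w H δ).1 ((bq w H δ).1 + (2 * bn H δ : ℕ)) (bq w H δ).2
        ((bq w H δ).2 + (2 * bn H δ : ℕ)) (shs p (orb G σ (rd N s))).1 := by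
      intro hin
      obtain ⟨c1, c2⟩ := in_Sc (o := o) hδ hx (v := (orb G σ (rd N s)).1) hin
      obtain ⟨⟨b1, b2⟩, b3, b4⟩ := os_bd hδ o
      rw [zp_zk] at c1 c2
      have e1 : (zk δ k (orb G σ (rd N s)).1 + os δ o).re =
        (zk δ k (orb G σ (rd N s)).1).re + (os δ o).re := rfl
      have e2 : (zk δ k (orb G σ (rd N s)).1 + os δ o).im =
        (zk δ k (orb G σ (rd N s)).1).im + (os δ o).im := rfl
      rw [e1] at c1
      rw [e2] at c2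
      have d1 : |(zk δ k (orb G σ (rd N s)).1).re - w.re| ≤ 5 * H := by
        rw [abs_le] at c1 ⊢
        constructor <;> linarith
      have d2 : |(zk δ k (orb G σ (rd N s)).1).im - w.im| ≤ 5 * H := by
        rw [abs_le] at c2 ⊢
        constructor <;> linarith
      have d3 := H984N.ML.dist_le_of d1 d2
      have t1 := dist_triangle w (zk δ k (orb G σ (rd N s)).1)
        (poly (fun j => zk δ k (orb G σ j).1) N s)
      have t2 := dist_triangle (zk δ k (orb G σ (rd N s)).1) (mk δ k (orb G σ (rd N s)))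
        (poly (fun j => zk δ k (orb G σ j).1) N s)
      rw [dist_comm (mk δ k _)] at t2
      rw [dist_comm w (zk δ k _)] at t1
      linarith
    obtain ⟨o1, o2⟩ := out_of hout
    refine ⟨shs p (orb G σ (rd N s)), 2 * N, crv_A hδ k hE hN hper (rd_le s), ?_⟩
    refine ⟨⟨_, hinv, ⟨orb G σ (rd N s), ⟨rd N s, Or.inl rfl⟩, rfl⟩, ?_⟩, hloc, o1, o2⟩
    rintro _ ⟨ρ, hρ, rfl⟩ hin
    obtain ⟨j, hj, rfl⟩ := hvis ρ hρ hin
    have hr := rd_le (N := N) s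
    refine ⟨j + (N - rd N s), by omega, ?_⟩
    rw [orb_shs hE, ← orb_add, show j + (N - rd N s) + rd N s = j + N by omega, orb_per hper]
  · -- open interface
    obtain ⟨τ, hτ⟩ := (nxt_bij G).2 σ
    have hτF : τ ∈ Full G σ := by
      rw [full_inv, hτ]
      exact ⟨0, Or.inl rfl⟩
    have hout : ¬ inR (bq w H δ).1 ((bq w H δ).1 + (2 * bn H δ : ℕ)) (bq w H δ).2
        ((bq w H δ).2 + (2 * bn H δ : ℕ)) (shs p σ).1 := by
      intro hin
      obtain ⟨c1, c2⟩ := in_Sc (o := o) hδ hx (v := σ.1) hin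
      have h1 := zp_step hδ o G τ 0
      have h2 : orb G τ (0 + 1) = σ := by
        rw [orb_succ]
        exact hτ
      have h3 : orb G τ 0 = τ := rfl
      rw [h2, h3] at h1
      have r1 := (H984N.ML.le_dist_re _ _).trans h1
      have r2 := (H984N.ML.le_dist_im _ _).trans h1
      obtain ⟨j, hj, he⟩ := hfull τ hτF ⟨by
        have : (zp δ o τ.1).re - w.re = ((zp δ o τ.1).re - (zp δ o σ.1).re) +
          ((zp δ o σ.1).re - w.re) := by ring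
        rw [this]
        refine (abs_add_le _ _).trans ?_
        linarith, by
        have : (zp δ o τ.1).im - w.im = ((zp δ o τ.1).im - (zp δ o σ.1).im) +
          ((zp δ o σ.1).im - w.im) := by ring
        rw [this]
        refine (abs_add_le _ _).trans ?_
        linarith⟩
      have h4 : orb G σ (j + 1) = σ := by rw [orb_succ, he, hτ]
      rcases Nat.lt_or_ge (j + 1) N with h5 | h5
      · exact hdis 0 (j + 1) (by omega) h5 h4.symm
      · have : j + 1 = N := by omega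
        rw [this] at h4
        exact hper h4
    obtain ⟨o1, o2⟩ := out_of hout
    refine ⟨shs p σ, N, crv_B hδ k hE hN, ?_⟩
    refine ⟨⟨_, hinv, ⟨σ, ⟨0, Or.inl rfl⟩, rfl⟩, ?_⟩, hloc, o1, o2⟩
    rintro _ ⟨ρ, hρ, rfl⟩ hin
    obtain ⟨j, hj, rfl⟩ := hvis ρ hρ hin
    exact ⟨j, hj.le, orb_shs hE σ j⟩

end Run7.h165.GI
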