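import Pool.Agent.H984R3.Per.SCount
import Pool.Agent.H984R3.Per.Rot
import Pool.Agent.H342R3.Tig.Stubs

/-! # Expected number of strands, with wired segments -/

set_option autoImplicit false

namespace Run7.h165.GI

open H974 Finset H342P H984P

/-- The edges of `W` in each slab are connected in the slab. -/
def SegC (W : Finset Edg) : Prop := ∀ A X : ℤ, ∀ e ∈ W, A ≤ e.1 → e.1 < X → ∀ e' ∈ W,
  A ≤ e'.1 → e'.1 < X → Reach (↑W ∩ slabE A X) (src e) (src e')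

theorem segH (x0 x1 q : ℤ) : SegC (RE x0 x1 q q) := by
  have key : ∀ (A X x : ℤ) (k : ℕ), A ≤ x → x0 ≤ x → x + k < X → x + k < x1 →
      Reach (↑(RE x0 x1 q q) ∩ slabE A X) (x, q) (x + k, q) := by
    intro A X x k h1 h2
    induction k with
    | zero => intro _ _; simp only [Nat.cast_zero, add_zero]; exact Reach.refl _ _
    | succ k ih =>
      intro h3 h4
      push_cast at h3 h4
      refine (ih (by omega) (by omega)).tail ⟨(x + k, q, true), ⟨?_, ?_, ?_⟩, Or.inl ⟨rfl, ?_⟩⟩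
      · rw [Finset.mem_coe, mem_RE_true]; omega
      · show A ≤ x + k
        omega
      · show x + k < X
        omega
      · rw [tgt_true]
        push_cast
        rw [add_assoc]
  rintro A X ⟨x, y, _ | _⟩ he h1 h2 ⟨x', y', _ | _⟩ he' h1' h2'
  · rw [mem_RE_false] at he; omega
  · rw [mem_RE_false] at he; omega
  · rw [mem_RE_false] at he'; omega
  · rw [mem_RE_true] at he he'
    simp only at h1 h2 h1' h2'
    obtain rfl : y = q := by omega
    obtain rfl : y' = y := by omega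
    show Reach _ (x, y') (x', y')
    rcases le_total x x' with h | h
    · obtain ⟨k, rfl⟩ := Int.le.dest h
      exact key A X x k h1 he.1 h2' (by omega)
    · obtain ⟨k, rfl⟩ := Int.le.dest h
      exact (key A X x' k h1' he'.1 h2 (by omega)).symm

theorem segV (p y0 y1 : ℤ) : SegC (RE p p y0 y1) := by
  have key : ∀ (A X y : ℤ) (k : ℕ), A ≤ p → p < X → y0 ≤ y → y + k < y1 →
      Reach (↑(RE p p y0 y1) ∩ slabE A X) (p, y) (p, y + k) := by
    intro A X y k h1 h2 h3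
    induction k with
    | zero => intro _; simp only [Nat.cast_zero, add_zero]; exact Reach.refl _ _
    | succ k ih =>
      intro h4
      push_cast at h4
      refine (ih (by omega)).tail ⟨(p, y + k, false), ⟨?_, ?_, ?_⟩, Or.inl ⟨rfl, ?_⟩⟩
      · rw [Finset.mem_coe, mem_RE_false]; omega
      · exact h1
      · exact h2
      · rw [tgt_false]
        push_cast
        rw [add_assoc]
  rintro A X ⟨x, y, _ | _⟩ he h1 h2 ⟨x', y', _ | _⟩ he' h1' h2'
  · rw [mem_RE_false] at he he'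
    simp only at h1 h2 h1' h2'
    obtain rfl : x = p := by omega
    obtain rfl : x' = x := by omega
    show Reach _ (x', y) (x', y')
    rcases le_total y y' with h | h
    · obtain ⟨k, rfl⟩ := Int.le.dest h
      exact key A X y k h1 h2 he.2.2.1 (by omega)
    · obtain ⟨k, rfl⟩ := Int.le.dest h
      exact (key A X y' k h1 h2 he'.2.2.1 (by omega)).symm
  · rw [mem_RE_true] at he'; omega
  · rw [mem_RE_true] at he; omega
  · rw [mem_RE_true] at he; omega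

/-- There is a strand. -/
def StE (A X : ℤ) (G : Set Edg) (y0 : ℤ) : Prop := ∃ (Y : ℤ) (T : ℕ), Strand G A y0 X Y T

/-- The cluster in the slab touches `W`. -/
def Tch (A X : ℤ) (G : Set Edg) (W : Finset Edg) (y0 : ℤ) : Prop :=
  ∃ e ∈ W, A ≤ e.1 ∧ e.1 < X ∧ Reach (G ∩ slabE A X) (A, y0) (src e)

theorem tch_one {A X : ℤ} {G : Set Edg} {W : Finset Edg} (hW : SegC W) (hWG : ↑W ⊆ G) {y y' : ℤ}
    (h : StE A X G y) (h' : StE A X G y') (ht : Tch A X G W y) (ht' : Tch A X G W y') :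
    y = y' := by
  obtain ⟨Y, T, hs⟩ := h
  obtain ⟨Y', T', hs'⟩ := h'
  obtain ⟨e, he, h1, h2, h3⟩ := ht
  obtain ⟨e', he', h1', h2', h3'⟩ := ht'
  refine strand_inj hs hs' ?_
  have h4 : Reach (G ∩ slabE A X) (src e) (src e') :=
    Reach.mono (by rintro f ⟨hf1, hf2⟩; exact ⟨hWG hf1, hf2⟩) (hW A X e he h1 h2 e' he' h1' h2')
  exact (h3.trans h4).trans h3'.symm

/-- without touching the wired edges the cluster is one of the sampled configuration -/
theorem untouched {A X : ℤ} {F W : Finset Edg} {y : ℤ} (h : ¬ Tch A X (↑(F ∪ W) : Set Edg) W y)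
    {v : Vtx} (hr : Reach (↑(F ∪ W) ∩ slabE A X) (A, y) v) :
    Reach (↑F ∩ slabE A X) (A, y) v := by
  induction hr with
  | refl => exact Relation.ReflTransGen.refl
  | @tail u w h1 h2 ih =>
    obtain ⟨e, ⟨he1, he2⟩, hc⟩ := h2
    refine ih.tail ⟨e, ⟨?_, he2⟩, hc⟩
    rw [Finset.mem_coe, Finset.mem_union] at he1
    rcases he1 with he1 | he1
    · exact he1
    · exfalso
      apply h
      refine ⟨e, he1, he2.1, he2.2, ?_⟩
      rcases hc with ⟨h3, -⟩ | ⟨h3, h4⟩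
      · rw [h3]; exact h1
      · rw [h3]
        refine Relation.ReflTransGen.tail h1 ⟨e, ⟨?_, he2⟩, Or.inr ⟨h3, h4⟩⟩
        rw [Finset.mem_coe, Finset.mem_union]
        exact Or.inr he1

theorem win_le {A X y1 : ℤ} {a : ℕ} {S F W : Finset Edg} (hF : F ⊆ S) :
    ∑ y0 ∈ Finset.Icc y1 (y1 + a),
      ind (StE A X (↑(F ∪ W) : Set Edg) y0 ∧ ¬ Tch A X (↑(F ∪ W) : Set Edg) W y0) ≤
    ((NC src tgt (SC_K A y1 a) {v | X ≤ v.1} (↑(F ∩ SC_S A X S) : Set Edg) : ℕ) : ℝ) := by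
  classical
  set P : ℤ → Prop := fun y0 =>
    StE A X (↑(F ∪ W) : Set Edg) y0 ∧ ¬ Tch A X (↑(F ∪ W) : Set Edg) W y0 with hP
  have h1 : ∑ y0 ∈ Finset.Icc y1 (y1 + a), ind (P y0) =
      (((Finset.Icc y1 (y1 + a)).filter P).card : ℝ) := by
    rw [Finset.card_filter, Nat.cast_sum]
    apply Finset.sum_congr rfl
    intro y _
    by_cases h : P y
    · rw [ind_of h, if_pos h, Nat.cast_one]
    · rw [ind_not_of h, if_neg h, Nat.cast_zero]
  rw [h1]
  have h2 : ((Finset.Icc y1 (y1 + a)).filter P).card ≤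
      NC src tgt (SC_K A y1 a) {v | X ≤ v.1} (↑(F ∩ SC_S A X S) : Set Edg) := by
    unfold NC
    apply Finset.card_le_card_of_injOn
      (fun y => clu src tgt (↑(F ∩ SC_S A X S) : Set Edg) (A, y))
    · intro y hy
      rw [Finset.mem_coe, Finset.mem_filter] at hy
      obtain ⟨hyw, ⟨Y, T, hst⟩, hnt⟩ := hy
      rw [Finset.mem_coe, mem_TC]
      refine ⟨(A, y), ?_, ⟨(X, Y), ?_, ?_⟩, rfl⟩
      · unfold SC_K
        exact Finset.mem_image.2 ⟨y, hyw, rfl⟩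
      · exact le_refl X
      · rw [SC_coe hF]
        exact untouched hnt (strand_reach hst)
    · intro y hy y' hy' heq
      rw [Finset.mem_coe, Finset.mem_filter] at hy hy'
      obtain ⟨-, ⟨Y, T, hst⟩, -⟩ := hy
      obtain ⟨-, ⟨Y', T', hst'⟩, -⟩ := hy'
      apply strand_inj hst hst'
      have h3 : (A, y') ∈ clu src tgt (↑(F ∩ SC_S A X S) : Set Edg) (A, y) := by
        simp only at heq
        rw [heq]
        exact GR.refl _ _
      have h4 : Reach (↑F ∩ slabE A X) (A, y) (A, y') := by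
        rw [← SC_coe hF]
        exact h3
      refine Reach.mono ?_ h4
      rintro f ⟨hf1, hf2⟩
      refine ⟨?_, hf2⟩
      rw [Finset.mem_coe, Finset.mem_union]
      exact Or.inl hf1
  exact_mod_cast h2

/-- expected number in a window -/
theorem win_count : ∃ C : ℝ, 0 < C ∧ ∀ (A X y1 : ℤ) (a : ℕ) (S W : Finset Edg), 5 ≤ a →
    A + 3 * a ≤ X →
    ∑ y0 ∈ Finset.Icc y1 (y1 + a), Pr (fun _ => (1/2:ℝ)) S
      (fun F => StE A X (↑(F ∪ W) : Set Edg) y0 ∧ ¬ Tch A X (↑(F ∪ W) : Set Edg) W y0) ≤ C := by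
  refine ⟨2 / kap ^ 2, by have := kap_pos; positivity, ?_⟩
  intro A X y1 a S W ha hX
  have hp : Ok (fun _ : Edg => (1/2:ℝ)) := fun _ => ⟨by norm_num, by norm_num⟩
  have hk := kap_pos
  have e1 : ∑ y0 ∈ Finset.Icc y1 (y1 + a), Pr (fun _ => (1/2:ℝ)) S
      (fun F => StE A X (↑(F ∪ W) : Set Edg) y0 ∧ ¬ Tch A X (↑(F ∪ W) : Set Edg) W y0) =
      Ex (fun _ => (1/2:ℝ)) S (fun F => ∑ y0 ∈ Finset.Icc y1 (y1 + a),
        ind (StE A X (↑(F ∪ W) : Set Edg) y0 ∧ ¬ Tch A X (↑(F ∪ W) : Set Edg) W y0)) := by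
    rw [Ex_sum]
    rfl
  rw [e1]
  have e2 : Ex (fun _ => (1/2:ℝ)) S (fun F => ∑ y0 ∈ Finset.Icc y1 (y1 + a),
        ind (StE A X (↑(F ∪ W) : Set Edg) y0 ∧ ¬ Tch A X (↑(F ∪ W) : Set Edg) W y0)) ≤
      Ex (fun _ => (1/2:ℝ)) S (fun F => ((NC src tgt (SC_K A y1 a) {v | X ≤ v.1}
        (↑(F ∩ SC_S A X S) : Set Edg) : ℕ) : ℝ) ^ 2) := by
    apply Ex_mono hp
    intro F hF
    refine (win_le hF).trans ?_
    have : ∀ n : ℕ, (n : ℝ) ≤ (n:ℝ) ^ 2 := by
      intro n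
      rcases Nat.eq_zero_or_pos n with h | h
      · rw [h]; norm_num
      · have h1 : (1:ℝ) ≤ n := by exact_mod_cast h
        nlinarith
    exact this _
  refine e2.trans ?_
  have hsub : SC_S A X S ⊆ S := Finset.filter_subset _ _
  have e3 : Ex (fun _ => (1/2:ℝ)) S (fun F => ((NC src tgt (SC_K A y1 a) {v | X ≤ v.1}
        (↑(F ∩ SC_S A X S) : Set Edg) : ℕ) : ℝ) ^ 2) =
      Ex (fun _ => (1/2:ℝ)) (SC_S A X S) (fun F => ((NC src tgt (SC_K A y1 a) {v | X ≤ v.1}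
        (↑(F ∩ SC_S A X S) : Set Edg) : ℕ) : ℝ) ^ 2) := by
    apply Ex_local hsub
    intro F _
    rw [Finset.inter_assoc, Finset.inter_self]
  rw [e3]
  have e4 : Ex (fun _ => (1/2:ℝ)) (SC_S A X S) (fun F => ((NC src tgt (SC_K A y1 a)
        {v | X ≤ v.1} (↑(F ∩ SC_S A X S) : Set Edg) : ℕ) : ℝ) ^ 2) =
      Ex (fun _ => (1/2:ℝ)) (SC_S A X S) (fun F => ((NC src tgt (SC_K A y1 a)
        {v | X ≤ v.1} (↑F : Set Edg) : ℕ) : ℝ) ^ 2) := by
    apply Ex_congr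
    intro F hF
    rw [Finset.inter_eq_left.mpr hF]
  rw [e4]
  have e5 := NC_sq (p := fun _ : Edg => (1/2:ℝ)) hp (SC_S A X S) src tgt (SC_K A y1 a)
    {v | X ≤ v.1} (lam := 1 - kap) (by linarith) ?_
  · rwa [sub_sub_cancel] at e5
  · refine le_trans (Pr_mono hp ?_) (pr_Cr ha A y1 (SC_S A X S))
    rintro F _ ⟨x, hx, b, hb, hr⟩
    unfold SC_K at hx
    rw [Finset.mem_image] at hx
    obtain ⟨y, hy, rfl⟩ := hx
    rw [Finset.mem_Icc] at hy
    refine ⟨(A, y), b, ?_, ?_, hr⟩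
    · unfold inR
      simp only
      omega
    · have hb' : X ≤ b.1 := hb
      right; left
      omega

/-- from windows to long intervals -/
theorem win_sum {g : ℤ → ℝ} (hg0 : ∀ y, 0 ≤ g y) {C : ℝ} (hC : 0 ≤ C) {a : ℕ} (ha : 5 ≤ a)
    (h : ∀ y1 : ℤ, ∑ y0 ∈ Finset.Icc y1 (y1 + a), g y0 ≤ C) (c : ℤ) (n : ℕ) :
    ∑ y0 ∈ Finset.Icc c (c + n), g y0 ≤ C * ((n:ℝ) / a + 1) := by
  have ha0 : (0:ℝ) < a := by
    have : (5:ℝ) ≤ a := by exact_mod_cast ha
    linarith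
  have key : ∀ k : ℕ, ∑ y0 ∈ Finset.Ico c (c + (k * a : ℕ)), g y0 ≤ C * k := by
    intro k
    induction k with
    | zero => simp
    | succ k ih =>
      have e1 : Finset.Ico c (c + ((k + 1) * a : ℕ)) =
          Finset.Ico c (c + (k * a : ℕ)) ∪
            Finset.Ico (c + (k * a : ℕ)) (c + ((k + 1) * a : ℕ)) := by
        rw [Finset.Ico_union_Ico_eq_Ico]
        · push_cast
          nlinarith [Nat.zero_le k, Nat.zero_le a]
        · push_cast
          nlinarith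
      rw [e1, Finset.sum_union (Finset.Ico_disjoint_Ico_consecutive _ _ _)]
      have e2 : ∑ y0 ∈ Finset.Ico (c + (k * a : ℕ)) (c + ((k + 1) * a : ℕ)), g y0 ≤ C := by
        refine le_trans ?_ (h (c + (k * a : ℕ)))
        apply Finset.sum_le_sum_of_subset_of_nonneg
        · intro y hy
          rw [Finset.mem_Ico] at hy
          rw [Finset.mem_Icc]
          push_cast at hy ⊢
          have : ((k:ℤ) + 1) * a = k * a + a := by ring
          omega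
        · intro y _ _
          exact hg0 y
      push_cast
      push_cast at ih e2
      nlinarith
  set k := n / a + 1 with hk
  have h1 : ∑ y0 ∈ Finset.Icc c (c + n), g y0 ≤ ∑ y0 ∈ Finset.Ico c (c + (k * a : ℕ)), g y0 := by
    apply Finset.sum_le_sum_of_subset_of_nonneg
    · intro y hy
      rw [Finset.mem_Icc] at hy
      rw [Finset.mem_Ico]
      have h2 : n < k * a := by
        rw [hk]
        have := Nat.div_add_mod n a
        have h3 := Nat.mod_lt n (show 0 < a by omega)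
        nlinarith
      have h4 : (n:ℤ) < (k * a : ℕ) := by exact_mod_cast h2
      omega
    · intro y _ _
      exact hg0 y
  refine h1.trans ((key k).trans ?_)
  apply mul_le_mul_of_nonneg_left _ hC
  rw [hk]
  push_cast
  have : ((n / a : ℕ) : ℝ) ≤ (n:ℝ) / a := Nat.cast_div_le
  linarith

/-- a sum of indicators of an event which happens at most once -/
theorem sum_one {I : Finset ℤ} {P : ℤ → Prop} (h : ∀ y ∈ I, ∀ y' ∈ I, P y → P y' → y = y') :
    ∑ y ∈ I, ind (P y) ≤ 1 := by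
  classical
  by_cases hex : ∃ y ∈ I, P y
  · obtain ⟨y, hy, hPy⟩ := hex
    rw [Finset.sum_eq_single y]
    · rw [ind_of hPy]
    · intro z hz hne
      exact ind_not_of fun hPz => hne (h z hz y hy hPz hPy)
    · exact fun hn => absurd hy hn
  · push Not at hex
    rw [Finset.sum_eq_zero fun y hy => ind_not_of (hex y hy)]
    norm_num

theorem wired_count : ∃ C : ℝ, 0 < C ∧ ∀ (A X c : ℤ) (n a : ℕ) (S W1 W2 : Finset Edg),
    SegC W1 → SegC W2 → 5 ≤ a → A + 3 * a ≤ X →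
    ∑ y0 ∈ Finset.Icc c (c + n), Pr (fun _ => (1/2:ℝ)) S
      (fun F => StE A X (↑(F ∪ (W1 ∪ W2)) : Set Edg) y0) ≤ C * ((n:ℝ) / a + 1) := by
  classical
  obtain ⟨C, hC, h⟩ := win_count
  refine ⟨C + 2, by linarith, ?_⟩
  intro A X c n a S W1 W2 h1 h2 ha hX
  have hp : Ok (fun _ : Edg => (1/2:ℝ)) := fun _ => ⟨by norm_num, by norm_num⟩
  have hna : (0:ℝ) ≤ (n:ℝ) / a := by positivity
  have e1 : ∀ F : Finset Edg, ∑ y0 ∈ Finset.Icc c (c + n),
      ind (StE A X (↑(F ∪ (W1 ∪ W2)) : Set Edg) y0) ≤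
      (∑ y0 ∈ Finset.Icc c (c + n), ind (StE A X (↑(F ∪ (W1 ∪ W2)) : Set Edg) y0 ∧
        ¬ Tch A X (↑(F ∪ (W1 ∪ W2)) : Set Edg) (W1 ∪ W2) y0)) + 2 := by
    intro F
    have hs1 : (↑W1 : Set Edg) ⊆ ↑(F ∪ (W1 ∪ W2)) := by
      intro e he
      rw [Finset.mem_coe, Finset.mem_union, Finset.mem_union]
      exact Or.inr (Or.inl he)
    have hs2 : (↑W2 : Set Edg) ⊆ ↑(F ∪ (W1 ∪ W2)) := by
      intro e he
      rw [Finset.mem_coe, Finset.mem_union, Finset.mem_union]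
      exact Or.inr (Or.inr he)
    have k1 := sum_one (I := Finset.Icc c (c + n))
      (P := fun y => StE A X (↑(F ∪ (W1 ∪ W2)) : Set Edg) y ∧
        Tch A X (↑(F ∪ (W1 ∪ W2)) : Set Edg) W1 y)
      (fun y _ y' _ q q' => tch_one h1 hs1 q.1 q'.1 q.2 q'.2)
    have k2 := sum_one (I := Finset.Icc c (c + n))
      (P := fun y => StE A X (↑(F ∪ (W1 ∪ W2)) : Set Edg) y ∧
        Tch A X (↑(F ∪ (W1 ∪ W2)) : Set Edg) W2 y)
      (fun y _ y' _ q q' => tch_one h2 hs2 q.1 q'.1 q.2 q'.2)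
    have k3 : ∑ y0 ∈ Finset.Icc c (c + n), ind (StE A X (↑(F ∪ (W1 ∪ W2)) : Set Edg) y0) ≤
        ∑ y0 ∈ Finset.Icc c (c + n), (ind (StE A X (↑(F ∪ (W1 ∪ W2)) : Set Edg) y0 ∧
          ¬ Tch A X (↑(F ∪ (W1 ∪ W2)) : Set Edg) (W1 ∪ W2) y0) +
          (ind (StE A X (↑(F ∪ (W1 ∪ W2)) : Set Edg) y0 ∧
            Tch A X (↑(F ∪ (W1 ∪ W2)) : Set Edg) W1 y0) +
          ind (StE A X (↑(F ∪ (W1 ∪ W2)) : Set Edg) y0 ∧
            Tch A X (↑(F ∪ (W1 ∪ W2)) : Set Edg) W2 y0))) := by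
      refine Finset.sum_le_sum fun y _ => ?_
      by_cases g : StE A X (↑(F ∪ (W1 ∪ W2)) : Set Edg) y
      · by_cases g1 : Tch A X (↑(F ∪ (W1 ∪ W2)) : Set Edg) (W1 ∪ W2) y
        · obtain ⟨e, he, g2⟩ := g1
          rw [Finset.mem_union] at he
          rw [ind_of g]
          have i0 := ind_nonneg (StE A X (↑(F ∪ (W1 ∪ W2)) : Set Edg) y ∧
            ¬ Tch A X (↑(F ∪ (W1 ∪ W2)) : Set Edg) (W1 ∪ W2) y)
          have i1 := ind_nonneg (StE A X (↑(F ∪ (W1 ∪ W2)) : Set Edg) y ∧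
            Tch A X (↑(F ∪ (W1 ∪ W2)) : Set Edg) W1 y)
          have i2 := ind_nonneg (StE A X (↑(F ∪ (W1 ∪ W2)) : Set Edg) y ∧
            Tch A X (↑(F ∪ (W1 ∪ W2)) : Set Edg) W2 y)
          rcases he with he | he
          · have i3 := ind_of (show StE A X (↑(F ∪ (W1 ∪ W2)) : Set Edg) y ∧
              Tch A X (↑(F ∪ (W1 ∪ W2)) : Set Edg) W1 y from ⟨g, e, he, g2⟩)
            linarith
          · have i3 := ind_of (show StE A X (↑(F ∪ (W1 ∪ W2)) : Set Edg) y ∧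
              Tch A X (↑(F ∪ (W1 ∪ W2)) : Set Edg) W2 y from ⟨g, e, he, g2⟩)
            linarith
        · have i3 := ind_of (show StE A X (↑(F ∪ (W1 ∪ W2)) : Set Edg) y ∧
            ¬ Tch A X (↑(F ∪ (W1 ∪ W2)) : Set Edg) (W1 ∪ W2) y from ⟨g, g1⟩)
          have i1 := ind_nonneg (StE A X (↑(F ∪ (W1 ∪ W2)) : Set Edg) y ∧
            Tch A X (↑(F ∪ (W1 ∪ W2)) : Set Edg) W1 y)
          have i2 := ind_nonneg (StE A X (↑(F ∪ (W1 ∪ W2)) : Set Edg) y ∧
            Tch A X (↑(F ∪ (W1 ∪ W2)) : Set Edg) W2 y)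
          rw [ind_of g, i3]
          linarith
      · rw [ind_not_of g]
        exact add_nonneg (ind_nonneg _) (add_nonneg (ind_nonneg _) (ind_nonneg _))
    rw [Finset.sum_add_distrib, Finset.sum_add_distrib] at k3
    linarith
  have e2 : ∑ y0 ∈ Finset.Icc c (c + n), Pr (fun _ => (1/2:ℝ)) S
      (fun F => StE A X (↑(F ∪ (W1 ∪ W2)) : Set Edg) y0) ≤
      (∑ y0 ∈ Finset.Icc c (c + n), Pr (fun _ => (1/2:ℝ)) S
        (fun F => StE A X (↑(F ∪ (W1 ∪ W2)) : Set Edg) y0 ∧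
          ¬ Tch A X (↑(F ∪ (W1 ∪ W2)) : Set Edg) (W1 ∪ W2) y0)) + 2 := by
    have s1 : ∑ y0 ∈ Finset.Icc c (c + n), Pr (fun _ => (1/2:ℝ)) S
        (fun F => StE A X (↑(F ∪ (W1 ∪ W2)) : Set Edg) y0) =
        Ex (fun _ => (1/2:ℝ)) S (fun F => ∑ y0 ∈ Finset.Icc c (c + n),
          ind (StE A X (↑(F ∪ (W1 ∪ W2)) : Set Edg) y0)) := by
      rw [Ex_sum]; rfl
    have s2 : ∑ y0 ∈ Finset.Icc c (c + n), Pr (fun _ => (1/2:ℝ)) S
        (fun F => StE A X (↑(F ∪ (W1 ∪ W2)) : Set Edg) y0 ∧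
          ¬ Tch A X (↑(F ∪ (W1 ∪ W2)) : Set Edg) (W1 ∪ W2) y0) =
        Ex (fun _ => (1/2:ℝ)) S (fun F => ∑ y0 ∈ Finset.Icc c (c + n),
          ind (StE A X (↑(F ∪ (W1 ∪ W2)) : Set Edg) y0 ∧
            ¬ Tch A X (↑(F ∪ (W1 ∪ W2)) : Set Edg) (W1 ∪ W2) y0)) := by
      rw [Ex_sum]; rfl
    have s3 : Ex (fun _ => (1/2:ℝ)) S (fun F => ∑ y0 ∈ Finset.Icc c (c + n),
          ind (StE A X (↑(F ∪ (W1 ∪ W2)) : Set Edg) y0 ∧
            ¬ Tch A X (↑(F ∪ (W1 ∪ W2)) : Set Edg) (W1 ∪ W2) y0) + 2) =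
        Ex (fun _ => (1/2:ℝ)) S (fun F => ∑ y0 ∈ Finset.Icc c (c + n),
          ind (StE A X (↑(F ∪ (W1 ∪ W2)) : Set Edg) y0 ∧
            ¬ Tch A X (↑(F ∪ (W1 ∪ W2)) : Set Edg) (W1 ∪ W2) y0)) + 2 := by
      rw [Ex_add, Ex_const]
    rw [s1, s2, ← s3]
    exact Ex_mono hp fun F _ => e1 F
  have e3 := win_sum (g := fun y0 => Pr (fun _ => (1/2:ℝ)) S
        (fun F => StE A X (↑(F ∪ (W1 ∪ W2)) : Set Edg) y0 ∧
          ¬ Tch A X (↑(F ∪ (W1 ∪ W2)) : Set Edg) (W1 ∪ W2) y0))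
    (fun y => Pr_nonneg hp _ _) hC.le ha (fun y1 => h A X y1 a S (W1 ∪ W2) ha hX) c n
  nlinarith

end Run7.h165.GI
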