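import Pool.Agent.Run7.h165.GI.Rx1
import Pool.Agent.H342R3.Tig.CNT

/-! # Number of strands of the four directions, with two wired segments -/

set_option autoImplicit false

namespace Run7.h165.GI

open H974 Finset H342P H984P H342T

/-- A segment. -/
def IsSeg (W : Finset Edg) : Prop :=
  (∃ x0 x1 q : ℤ, W = RE x0 x1 q q) ∨ ∃ p y0 y1 : ℤ, W = RE p p y0 y1

theorem IsSeg.conn {W : Finset Edg} (h : IsSeg W) : SegC W := by
  rcases h with ⟨x0, x1, q, rfl⟩ | ⟨p, y0, y1, rfl⟩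
  · exact segH _ _ _
  · exact segV _ _ _

theorem IsSeg.rot {W : Finset Edg} (h : IsSeg W) : IsSeg (rM W) := by
  rcases h with ⟨x0, x1, q, rfl⟩ | ⟨p, y0, y1, rfl⟩
  · rw [rot_RE]
    exact Or.inr ⟨_, _, _, rfl⟩
  · rw [rot_RE]
    exact Or.inl ⟨_, _, _, rfl⟩

theorem rM_union (F G : Finset Edg) : rM (F ∪ G) = rM F ∪ rM G := by
  unfold rM
  exact Finset.map_union _ _

theorem wired_N4 : ∃ C : ℝ, 0 < C ∧ ∀ (S W1 W2 : Finset Edg), IsSeg W1 → IsSeg W2 →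
    ∀ (n a m : ℕ), 5 ≤ a → 1 ≤ m →
    Pr (fun _ => (1/2:ℝ)) S (fun F => m ≤ N4 n a (F ∪ (W1 ∪ W2))) ≤ C * ((n:ℝ) / a + 1) ^ 2 / m := by
  obtain ⟨C, hC, hcount⟩ := wired_count
  refine ⟨8 * C, by positivity, ?_⟩
  intro S W1 W2 hW1 hW2 n a m ha hm
  have hok : Ok (fun _ : Edg => (1/2:ℝ)) := fun _ => ⟨by norm_num, by norm_num⟩
  set B := 2 * C * ((n:ℝ) / a + 1) ^ 2 with hB
  -- the four expectations
  have e0 : ∀ (b c : ℤ) (g : Finset Edg → Finset Edg) (S' V1 V2 : Finset Edg), SegC V1 → SegC V2 →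
      (∀ A : Finset Edg → Prop, Pr (fun _ => (1/2:ℝ)) S (fun F => A (g F)) =
        Pr (fun _ => (1/2:ℝ)) S' A) →
      Ex (fun _ => (1/2:ℝ)) S (fun F => (NS n a b c (g F ∪ (V1 ∪ V2)) : ℝ)) ≤ B := by
    intro b c g S' V1 V2 hV1 hV2 hg
    have h1 : Ex (fun _ => (1/2:ℝ)) S (fun F => (NS n a b c (g F ∪ (V1 ∪ V2)) : ℝ)) =
        ∑ x ∈ Finset.range (n / a + 2) ×ˢ Finset.Icc c (c + n),
          Pr (fun _ => (1/2:ℝ)) S' (fun F => cnt_st a b x (F ∪ (V1 ∪ V2))) := by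
      rw [Ex_congr (g := fun F => ∑ x ∈ Finset.range (n / a + 2) ×ˢ Finset.Icc c (c + n),
        ind (cnt_st a b x (g F ∪ (V1 ∪ V2)))) (fun F _ => cnt_NS n a b c (g F ∪ (V1 ∪ V2))), Ex_sum]
      refine Finset.sum_congr rfl fun x _ => ?_
      exact hg (fun F => cnt_st a b x (F ∪ (V1 ∪ V2)))
    rw [h1, Finset.sum_product]
    have h1 : ∀ i ∈ Finset.range (n / a + 2), ∑ y0 ∈ Finset.Icc c (c + n),
        Pr (fun _ => (1/2:ℝ)) S' (fun F => cnt_st a b (i, y0) (F ∪ (V1 ∪ V2))) ≤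
          C * ((n:ℝ) / a + 1) :=
      fun i _ => hcount (b + i * a) (b + i * a + 3 * a) c n a S' V1 V2 hV1 hV2 ha le_rfl
    refine le_trans (Finset.sum_le_card_nsmul _ _ _ h1) ?_
    rw [nsmul_eq_mul, Finset.card_range]
    have h3 : ((n / a + 2 : ℕ) : ℝ) ≤ 2 * ((n:ℝ) / a + 1) := by
      push_cast
      have h4 : ((n / a : ℕ) : ℝ) ≤ (n:ℝ) / a := Nat.cast_div_le
      have h5 : (0:ℝ) ≤ (n:ℝ) / a := by positivity
      linarith
    have h5 : 0 ≤ C * ((n:ℝ) / a + 1) := by positivity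
    calc ((n / a + 2 : ℕ) : ℝ) * (C * ((n:ℝ) / a + 1))
        ≤ (2 * ((n:ℝ) / a + 1)) * (C * ((n:ℝ) / a + 1)) := mul_le_mul_of_nonneg_right h3 h5
      _ = 2 * C * ((n:ℝ) / a + 1) ^ 2 := by ring
  have x0 := e0 0 0 (fun F => F) S W1 W2 hW1.conn hW2.conn (fun A => rfl)
  have x1 := e0 (-n) 0 (fun F => rM F) (rM S) _ _ hW1.rot.conn hW2.rot.conn
    (fun A => (rot_pr _ _ _).symm)
  have x2 := e0 (-n) (-n) (fun F => rM (rM F)) (rM (rM S)) _ _ hW1.rot.rot.conn hW2.rot.rot.conn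
    (fun A => by rw [← rot_pr (A := fun F => A (rM F)), ← rot_pr])
  have x3 := e0 0 (-n) (fun F => rM (rM (rM F))) (rM (rM (rM S))) _ _ hW1.rot.rot.rot.conn
    hW2.rot.rot.rot.conn (fun A => by
    rw [← rot_pr (A := fun F => A (rM (rM F))), ← rot_pr (A := fun F => A (rM F)), ← rot_pr])
  have hN : Ex (fun _ => (1/2:ℝ)) S (fun F => (N4 n a (F ∪ (W1 ∪ W2)) : ℝ)) ≤ 4 * B := by
    have h1 : Ex (fun _ => (1/2:ℝ)) S (fun F => (N4 n a (F ∪ (W1 ∪ W2)) : ℝ)) =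
        Ex (fun _ => (1/2:ℝ)) S (fun F => (NS n a 0 0 (F ∪ (W1 ∪ W2)) : ℝ)) +
        Ex (fun _ => (1/2:ℝ)) S (fun F => (NS n a (-n) 0 (rM F ∪ (rM W1 ∪ rM W2)) : ℝ)) +
        Ex (fun _ => (1/2:ℝ)) S
          (fun F => (NS n a (-n) (-n) (rM (rM F) ∪ (rM (rM W1) ∪ rM (rM W2))) : ℝ)) +
        Ex (fun _ => (1/2:ℝ)) S (fun F => (NS n a 0 (-n)
          (rM (rM (rM F)) ∪ (rM (rM (rM W1)) ∪ rM (rM (rM W2)))) : ℝ)) := by
      rw [← Ex_add, ← Ex_add, ← Ex_add]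
      refine Ex_congr fun F _ => ?_
      unfold N4
      simp only [rM_union]
      push_cast
      ring
    rw [h1]
    linarith
  have hm0 : (0:ℝ) < m := by exact_mod_cast hm
  have hmark : (m:ℝ) * Pr (fun _ => (1/2:ℝ)) S (fun F => m ≤ N4 n a (F ∪ (W1 ∪ W2))) ≤
      Ex (fun _ => (1/2:ℝ)) S (fun F => (N4 n a (F ∪ (W1 ∪ W2)) : ℝ)) := by
    unfold Pr
    rw [← Ex_mul_left]
    refine Ex_mono hok fun F _ => ?_
    by_cases h : m ≤ N4 n a (F ∪ (W1 ∪ W2))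
    · rw [ind_of h, mul_one]
      exact_mod_cast h
    · rw [ind_not_of h, mul_zero]
      positivity
  rw [le_div_iff₀ hm0]
  calc Pr (fun _ => (1/2:ℝ)) S (fun F => m ≤ N4 n a (F ∪ (W1 ∪ W2))) * m
      = (m:ℝ) * Pr (fun _ => (1/2:ℝ)) S (fun F => m ≤ N4 n a (F ∪ (W1 ∪ W2))) := mul_comm _ _
    _ ≤ 4 * B := hmark.trans hN
    _ = 8 * C * ((n:ℝ) / a + 1) ^ 2 := by rw [hB]; ring

/-- the beginning of a polygonal path -/
theorem poly_sub (f : ℕ → ℂ) {N P : ℕ} (hN : 0 < N) (hNP : N ≤ P) (s t : unitInterval)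
    (h : (P : ℝ) * (s : ℝ) = N * (t : ℝ)) : poly f N t = poly f P s := by
  show f 0 + ∑ j ∈ Finset.range N,
      ((max 0 (min 1 ((N : ℝ) * (t : ℝ) - j)) : ℝ) : ℂ) * (f (j + 1) - f j) =
    f 0 + ∑ j ∈ Finset.range P,
      ((max 0 (min 1 ((P : ℝ) * (s : ℝ) - j)) : ℝ) : ℂ) * (f (j + 1) - f j)
  rw [h]
  congr 1
  apply Finset.sum_subset (Finset.range_subset_range.2 hNP)
  intro j _ hj
  rw [Finset.mem_range, not_lt] at hj
  have h1 : (N : ℝ) * (t : ℝ) - j ≤ 0 := by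
    have h2 : (N : ℝ) ≤ j := by exact_mod_cast hj
    have h3 := t.2.2
    have h4 : (0:ℝ) ≤ N := by positivity
    nlinarith
  rw [min_eq_right (by linarith), max_eq_left h1]
  simp

/-- the beginning of a path which can be cut into few pieces -/
theorem cut_sub {m : ℕ} {r : ℝ} {f : ℕ → ℂ} {N P : ℕ} (hN : 0 < N) (hNP : N ≤ P)
    (h : Cut m r (poly f P)) : Cut m r (poly f N) := by
  obtain ⟨k, t, hk, hkm, h0, h1, hmono, hd⟩ := h
  have hP : 0 < P := lt_of_lt_of_le hN hNP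
  have hPR : (0:ℝ) < P := by exact_mod_cast hP
  have hNR : (0:ℝ) < N := by exact_mod_cast hN
  have hNPR : (N:ℝ) ≤ P := by exact_mod_cast hNP
  set lam : ℝ := N / P with hlam
  have hl0 : 0 < lam := by positivity
  have hl1 : lam ≤ 1 := by rw [hlam, div_le_one hPR]; exact hNPR
  classical
  have hex : ∃ i, lam ≤ t i := ⟨k, by rw [h1]; exact hl1⟩
  set k' := Nat.find hex with hk'
  have hs : lam ≤ t k' := Nat.find_spec hex
  have hmin : ∀ i < k', t i < lam := fun i hi => not_le.1 (Nat.find_min hex hi)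
  have hk'k : k' ≤ k := Nat.find_min' hex (by rw [h1]; exact hl1)
  have hk'0 : 0 < k' := by
    rcases Nat.eq_zero_or_pos k' with h2 | h2
    · rw [h2, h0] at hs
      linarith
    · exact h2
  refine ⟨k', fun i => if i < k' then t i / lam else 1, hk'0, hk'k.trans hkm, ?_, ?_, ?_, ?_⟩
  · simp only [if_pos hk'0, h0, zero_div]
  · simp
  · intro i hi
    simp only [if_pos hi]
    split_ifs with h2
    · exact div_lt_div_of_pos_right (hmono i (by omega)) hl0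
    · rw [div_lt_one hl0]
      exact hmin i hi
  · intro i hi s s' a1 a2 a3 a4
    simp only [if_pos hi] at a1 a3
    have key : ∀ u : unitInterval, t i / lam ≤ (u : ℝ) →
        (u : ℝ) ≤ (if i + 1 < k' then t (i + 1) / lam else 1) →
        t i ≤ lam * u ∧ lam * u ≤ t (i + 1) := by
      intro u b1 b2
      rw [div_le_iff₀ hl0] at b1
      refine ⟨by linarith, ?_⟩
      split_ifs at b2 with h2
      · rw [le_div_iff₀ hl0] at b2
        linarith
      · have h3 : i + 1 = k' := by omega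
        rw [h3]
        have h4 : lam * u ≤ lam := by nlinarith
        linarith
    have hmem : ∀ u : unitInterval, lam * (u : ℝ) ∈ unitInterval := by
      intro u
      have := u.2.1
      have := u.2.2
      exact ⟨by positivity, by nlinarith⟩
    have e : ∀ u : unitInterval, poly f N u = poly f P ⟨lam * u, hmem u⟩ := by
      intro u
      apply poly_sub f hN hNP
      simp only [hlam]
      field_simp
    rw [e s, e s']
    exact hd i (by omega) _ _ (key s a1 a2).1 (key s a1 a2).2 (key s' a3 a4).1 (key s' a3 a4).2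

end Run7.h165.GI
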