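import Pool.Agent.Run7.h165.GI.Rx2
import Pool.Agent.Run7.h165.GI.Rc
import Pool.Agent.H342R3.Tig.Fin
import Pool.Agent.H342R3.Tig.GRD
import Pool.Agent.H342R3.Tig.SML
import Pool.Agent.H342R3.Tig.ARZ
import Pool.Agent.H342R3.Tig.POL
import Pool.Agent.H342R3.Tig.PRK

/-! # Relative compactness of the laws of the chordal interface of a rectangle -/

set_option autoImplicit false

namespace Run7.h165.GI

open H974 H12S Finset H984P H342L H342T H342P.Plain MeasureTheory Filter Topology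
open Run7.h561.CC (Seq lawE lawE_apply)
open Pool.Agent.TH990.FU (zp)
open scoped ENNReal

/-- scaling of polygonal paths -/
theorem poly_aff (f : ℕ → ℂ) (N : ℕ) (o : ℂ) (M : ℝ) (t : unitInterval) :
    poly (fun j => o + (M : ℂ) * f j) N t = o + (M : ℂ) * poly f N t := by
  show o + (M : ℂ) * f 0 + ∑ j ∈ Finset.range N,
      ((max 0 (min 1 ((N : ℝ) * (t : ℝ) - j)) : ℝ) : ℂ) *
        (o + (M : ℂ) * f (j + 1) - (o + (M : ℂ) * f j)) =
    o + (M : ℂ) * (f 0 + ∑ j ∈ Finset.range N,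
      ((max 0 (min 1 ((N : ℝ) * (t : ℝ) - j)) : ℝ) : ℂ) * (f (j + 1) - f j))
  rw [mul_add, Finset.mul_sum, ← add_assoc]
  congr 1
  refine Finset.sum_congr rfl fun j _ => ?_
  ring

theorem cut_scale {m : ℕ} {r ρ : ℝ} {γ γ' : C(unitInterval, ℂ)} (hρ0 : 0 ≤ ρ) (hρ : ρ ≤ 1)
    (hγ : ∀ t, γ' t = 0 + (ρ : ℂ) * γ t) (h : Cut m r γ) : Cut m r γ' := by
  obtain ⟨k, t, h1, h2, h3, h4, h5, h6⟩ := h
  refine ⟨k, t, h1, h2, h3, h4, h5, fun i hi s s' a b c d => ?_⟩
  have h7 := h6 i hi s s' a b c d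
  have e : dist (γ' s) (γ' s') = ρ * dist (γ s) (γ s') := by
    rw [hγ, hγ, zero_add, zero_add, dist_eq_norm, ← mul_sub, norm_mul, Complex.norm_real,
      Real.norm_eq_abs, abs_of_nonneg hρ0, ← dist_eq_norm]
  rw [e]
  have h8 : 0 ≤ dist (γ s) (γ s') := dist_nonneg
  nlinarith

theorem csq_convex : Convex ℝ csq := by
  have h : csq = (Complex.re ⁻¹' Set.Icc 0 1) ∩ (Complex.im ⁻¹' Set.Icc 0 1) := by
    ext z
    simp only [csq, Set.mem_ofPred_eq, Set.mem_inter_iff, Set.mem_preimage, Set.mem_Icc]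
  rw [h]
  exact ((convex_Icc (0:ℝ) 1).linear_preimage Complex.reLm).inter
    ((convex_Icc (0:ℝ) 1).linear_preimage Complex.imLm)

theorem poly_in {f : ℕ → ℂ} {N : ℕ} (hN : 0 < N) {S : Set ℂ} (hS : Convex ℝ S)
    (h : ∀ j, f j ∈ S) (t : unitInterval) : poly f N t ∈ S := by
  have h1 : poly f N t ∈ Set.range (poly f N) := ⟨t, rfl⟩
  rw [(t_POL f N hN).2.2.1] at h1
  simp only [Set.mem_iUnion] at h1
  obtain ⟨j, -, h2⟩ := h1
  exact hS.segment_subset (h _) (h _) h2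

theorem gr_sub {m h : ℤ} {n : ℕ} (hm : 0 ≤ m) (hmn : m ≤ n) (hh : 0 ≤ h) (hhn : h ≤ n)
    {F : Finset Edg} (hF : F ⊆ RE 0 m 0 h) : Gr m h F ⊆ edges n := by
  rw [edges_eq]
  unfold Gr
  intro e he
  rw [Finset.mem_union, Finset.mem_union] at he
  obtain ⟨x, y, _ | _⟩ := e
  · rw [mem_RE_false]
    rcases he with he | he | he
    · have := hF he
      rw [mem_RE_false] at this
      omega
    · rw [mem_RE_false] at he
      omega
    · rw [mem_RE_false] at he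
      omega
  · rw [mem_RE_true]
    rcases he with he | he | he
    · have := hF he
      rw [mem_RE_true] at this
      omega
    · rw [mem_RE_true] at he
      omega
    · rw [mem_RE_true] at he
      omega

theorem box_mem {n : ℕ} {v : ℤ × ℤ} : v ∈ H342P.Plain.box n ↔ (0 ≤ v.1 ∧ v.1 ≤ n) ∧ (0 ≤ v.2 ∧ v.2 ≤ n) := by
  unfold H342P.Plain.box
  rw [Finset.mem_product, Finset.mem_Icc, Finset.mem_Icc]

/-- deterministic part -/
theorem chord_cut {m h : ℤ} {n : ℕ} (hn : 0 < n) (hm : 0 ≤ m) (hmn : m ≤ n) (hh : 0 ≤ h)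
    (hhn : h ≤ n) {F : Finset Edg} (hF : F ⊆ RE 0 m 0 h) {δ : ℝ} (hδ : 0 ≤ δ) (hδn : δ * n ≤ 1)
    {c : Curve} (hc : IsChord δ 0 m h F c) :
    (∀ s, c.path s ∈ csq) ∧ (∀ j : ℕ, Cut (4 * (n + 1) ^ 2 * (j + 1)) (1 / ((j:ℝ) + 1)) c.path) ∧
    (∀ a : ℕ, 1 ≤ a → Cut (N4 n a (Gr m h F) + 1) ((12 * a + 6) / n) c.path) := by
  classical
  obtain ⟨N, hN, hmin, hpath⟩ := hc
  have hnR : (0:ℝ) < n := by exact_mod_cast hn
  set G : Finset Edg := Gr m h F with hG
  have hbox : ∀ s, (orb (↑G : Set Edg) (stA h) s).1 ∈ H342P.Plain.box n := by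
    intro s
    refine CPT_box (v := (0, h)) (gr_sub hm hmn hh hhn hF) ?_ ?_
    · rw [box_mem]; simp only; omega
    · rw [mem_cluster]
      exact pb_reach _ (stA h) s
  -- the number of steps is positive
  have hN0 : 0 < N := by
    rcases Nat.eq_zero_or_pos N with h0 | h0
    · exfalso
      rw [h0] at hN
      have : stA h = stB m := hN
      unfold stA stB at this
      simp at this
    · exact h0
  -- the period
  have hex : ∃ P : ℕ, 0 < P ∧ orb (↑G : Set Edg) (stA h) P = stA h := P17.periodic G (stA h)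
  set P := Nat.find hex with hPdef
  obtain ⟨hP0, hP⟩ := Nat.find_spec hex
  have hPmin : ∀ j, 0 < j → j < P → orb (↑G : Set Edg) (stA h) j ≠ stA h :=
    fun j hj hjP he => Nat.find_min hex hjP ⟨hj, he⟩
  have hNP : N ≤ P := by
    by_contra hcon
    push Not at hcon
    apply hmin (N - P) (by omega)
    have h1 := Run7.h561.EC.orb_per' hP 1 (N - P)
    rw [one_mul, show N - P + P = N by omega] at h1
    rw [← h1]
    exact hN
  have hpt : ∀ v : ℤ × ℤ, zp δ 0 v = 0 + ((δ * n : ℝ) : ℂ) * pt n v := by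
    intro v
    apply Complex.ext
    · rw [zero_add, Complex.re_ofReal_mul]
      show (0:ℂ).re + δ * (v.1:ℝ) = δ * n * ((v.1:ℝ) / n)
      rw [Complex.zero_re]
      field_simp
      ring
    · rw [zero_add, Complex.im_ofReal_mul]
      show (0:ℂ).im + δ * (v.2:ℝ) = δ * n * ((v.2:ℝ) / n)
      rw [Complex.zero_im]
      field_simp
      ring
  have hsc : ∀ t, c.path t = 0 + ((δ * n : ℝ) : ℂ) *
      poly (fun j => pt n (orb (↑G : Set Edg) (stA h) j).1) N t := by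
    intro t
    rw [hpath, ← poly_aff]
    congr 2
    funext j
    exact hpt _
  have hρ0 : 0 ≤ δ * n := by positivity
  refine ⟨fun s => ?_, fun j => ?_, fun a ha => ?_⟩
  · rw [hpath]
    refine poly_in hN0 csq_convex (fun j => ?_) s
    have h1 := hbox j
    rw [box_mem] at h1
    obtain ⟨⟨a1, a2⟩, a3, a4⟩ := h1
    have b1 : (0:ℝ) ≤ ((orb (↑G : Set Edg) (stA h) j).1.1 : ℝ) := by exact_mod_cast a1
    have b2 : ((orb (↑G : Set Edg) (stA h) j).1.1 : ℝ) ≤ n := by exact_mod_cast a2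
    have b3 : (0:ℝ) ≤ ((orb (↑G : Set Edg) (stA h) j).1.2 : ℝ) := by exact_mod_cast a3
    have b4 : ((orb (↑G : Set Edg) (stA h) j).1.2 : ℝ) ≤ n := by exact_mod_cast a4
    show ((0:ℝ) ≤ (0:ℂ).re + δ * ((orb (↑G : Set Edg) (stA h) j).1.1 : ℝ) ∧
      (0:ℂ).re + δ * ((orb (↑G : Set Edg) (stA h) j).1.1 : ℝ) ≤ 1) ∧
      ((0:ℝ) ≤ (0:ℂ).im + δ * ((orb (↑G : Set Edg) (stA h) j).1.2 : ℝ) ∧
      (0:ℂ).im + δ * ((orb (↑G : Set Edg) (stA h) j).1.2 : ℝ) ≤ 1)
    rw [Complex.zero_re, Complex.zero_im]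
    refine ⟨⟨by positivity, by nlinarith⟩, by positivity, by nlinarith⟩
  · refine cut_scale hρ0 hδn hsc ?_
    have h1 := t_SML t_POL (fun j => pt n (orb (↑G : Set Edg) (stA h) j).1) N
      (1 / ((j:ℝ) + 1)) hN0 (by positivity) (fun j => pt_step hn _ _ _)
    refine h1.mono ?_ le_rfl
    have h2 : ⌈1 / (1 / ((j:ℝ) + 1))⌉₊ = j + 1 := by
      rw [one_div_one_div]
      exact_mod_cast Nat.ceil_natCast (j + 1)
    rw [h2]
    exact Nat.mul_le_mul_right _ (hNP.trans (period_le hbox hPmin))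
  · refine cut_scale hρ0 hδn hsc ?_
    refine cut_sub hN0 hNP (t_GRD t_POL n a G (stA h) P hn ha (fun s => ?_) hP0 hP hPmin)
    have h1 := hbox s
    rw [box_mem] at h1
    exact h1

/-- Uniform compact sets for the normalised interfaces. -/
theorem chord_tight0 {ε : ℝ} (hε : 0 < ε) : ∃ K : Set Curve, IsCompact K ∧ IsClosed K ∧
    ∀ (m h : ℤ) (n : ℕ) (δ : ℝ), 0 < n → 0 ≤ m → m ≤ n → 0 ≤ h → h ≤ n → 0 ≤ δ → δ * n ≤ 1 →
    ∀ c : Finset Edg → Curve, (∀ F ⊆ RE 0 m 0 h, IsChord δ 0 m h F (c F)) →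
      Pr (fun _ => (1/2:ℝ)) (RE 0 m 0 h) (fun F => c F ∉ K) ≤ ε := by
  classical
  have hok : Ok (fun _ : Edg => (1/2:ℝ)) := fun _ => ⟨by norm_num, by norm_num⟩
  obtain ⟨C, hC0, hcnt⟩ := wired_N4
  set n' : ℕ → ℕ := fun j => 1000 * (j + 1) with hn'
  set m' : ℕ → ℕ := fun j => ⌈C * (49 * ((j:ℝ) + 1)) ^ 2 * 2 ^ (j + 1) / ε⌉₊ + 1 with hm'
  set D : ℕ → ℕ := fun j => m' j + 4 * (n' j + 1) ^ 2 * (j + 1) with hD
  obtain ⟨K, hKc, hKcl, hmem⟩ := t_ARZ D
  refine ⟨K, hKc, hKcl, fun m h n δ hn hm hmn hh hhn hδ hδn c hc => ?_⟩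
  have hbad : Pr (fun _ => (1/2:ℝ)) (RE 0 m 0 h) (fun F => c F ∉ K) ≤
      Pr (fun _ => (1/2:ℝ)) (RE 0 m 0 h)
      (fun F => ∃ j ∈ (Finset.range n).filter (fun j => n' j ≤ n),
        m' j ≤ N4 n (n / (24 * (j + 1))) (Gr m h F)) := by
    refine Pr_mono hok fun F hF hnot => ?_
    by_contra hcon
    apply hnot
    obtain ⟨h1, h2, h3⟩ := chord_cut hn hm hmn hh hhn hF hδ hδn (hc F hF)
    apply hmem _ h1
    intro j
    by_cases hj : n' j ≤ n
    · have hjn : j ∈ (Finset.range n).filter (fun j => n' j ≤ n) := by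
        rw [Finset.mem_filter, Finset.mem_range]
        refine ⟨?_, hj⟩
        simp only [hn'] at hj
        omega
      have h4 : N4 n (n / (24 * (j + 1))) (Gr m h F) < m' j := by
        by_contra h5
        exact hcon ⟨j, hjn, not_lt.mp h5⟩
      simp only [hn'] at hj
      have hkpos : 0 < 24 * (j + 1) := by omega
      have ha : 1 ≤ n / (24 * (j + 1)) := by
        rw [Nat.le_div_iff_mul_le hkpos]
        omega
      refine (h3 _ ha).mono (by simp only [hD]; omega) ?_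
      have hnR : (0:ℝ) < n := by exact_mod_cast hn
      have hj0 : (0:ℝ) < (j:ℝ) + 1 := by positivity
      have hnj : (1000:ℝ) * ((j:ℝ) + 1) ≤ n := by exact_mod_cast hj
      have h6 : ((n / (24 * (j + 1)) : ℕ) : ℝ) ≤ (n:ℝ) / (24 * ((j:ℝ) + 1)) := by
        have := Nat.cast_div_le (α := ℝ) (m := n) (n := 24 * (j + 1))
        push_cast at this
        exact this
      rw [le_div_iff₀ (by positivity)] at h6
      rw [div_le_div_iff₀ hnR hj0]
      nlinarith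
    · refine (h2 j).mono ?_ le_rfl
      have h5 : n + 1 ≤ n' j + 1 := by omega
      have h6 : 4 * (n + 1) ^ 2 * (j + 1) ≤ 4 * (n' j + 1) ^ 2 * (j + 1) := by gcongr
      simp only [hD]
      omega
  refine hbad.trans ((Pr_exists_le hok _ _ _).trans ?_)
  have hterm : ∀ j ∈ (Finset.range n).filter (fun j => n' j ≤ n),
      Pr (fun _ => (1/2:ℝ)) (RE 0 m 0 h)
        (fun F => m' j ≤ N4 n (n / (24 * (j + 1))) (Gr m h F)) ≤ ε * (1/2) ^ (j + 1) := by
    intro j hj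
    rw [Finset.mem_filter, Finset.mem_range] at hj
    obtain ⟨-, hj⟩ := hj
    simp only [hn'] at hj
    have hkpos : 0 < 24 * (j + 1) := by omega
    have ha : 5 ≤ n / (24 * (j + 1)) := by
      rw [Nat.le_div_iff_mul_le hkpos]
      omega
    refine (hcnt (RE 0 m 0 h) (RE 0 m 0 0) (RE 0 0 0 h) (Or.inl ⟨_, _, _, rfl⟩)
      (Or.inr ⟨_, _, _, rfl⟩) n _ (m' j) ha (by simp only [hm']; omega)).trans ?_
    obtain ⟨h1, -⟩ := fs_div hkpos (show 2 * (24 * (j + 1)) ≤ n by omega)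
    set a : ℕ := n / (24 * (j + 1)) with haa
    have haR : (5:ℝ) ≤ a := by exact_mod_cast ha
    have hj0 : (0:ℝ) < (j:ℝ) + 1 := by positivity
    have h2 : (n:ℝ) / a ≤ 48 * ((j:ℝ) + 1) := by
      rw [div_le_iff₀ (by linarith)]
      push_cast at h1
      rw [div_le_iff₀ (by positivity)] at h1
      linarith
    have h3 : ((n:ℝ) / a + 1) ^ 2 ≤ (49 * ((j:ℝ) + 1)) ^ 2 := by
      apply pow_le_pow_left₀ (by positivity)
      have : (0:ℝ) ≤ j := by positivity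
      linarith
    have hm0 : (0:ℝ) < (m' j : ℝ) := by
      have : 0 < m' j := by simp only [hm']; omega
      exact_mod_cast this
    rw [div_le_iff₀ hm0]
    have h4 : C * (49 * ((j:ℝ) + 1)) ^ 2 * 2 ^ (j + 1) / ε ≤ (m' j : ℝ) := by
      simp only [hm']
      push_cast
      have := Nat.le_ceil (C * (49 * ((j:ℝ) + 1)) ^ 2 * 2 ^ (j + 1) / ε)
      linarith
    rw [div_le_iff₀ hε] at h4
    have h5 : (0:ℝ) < 2 ^ (j + 1) := by positivity
    calc C * ((n:ℝ) / a + 1) ^ 2 ≤ C * (49 * ((j:ℝ) + 1)) ^ 2 :=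
          mul_le_mul_of_nonneg_left h3 hC0.le
      _ = (C * (49 * ((j:ℝ) + 1)) ^ 2 * 2 ^ (j + 1)) * (1/2) ^ (j + 1) := by
          rw [one_div, inv_pow, mul_assoc _ ((2:ℝ) ^ (j + 1)), mul_inv_cancel₀ h5.ne', mul_one]
      _ ≤ ((m' j : ℝ) * ε) * (1/2) ^ (j + 1) :=
          mul_le_mul_of_nonneg_right h4 (by positivity)
      _ = ε * (1/2) ^ (j + 1) * (m' j : ℝ) := by ring
  refine (Finset.sum_le_sum hterm).trans ?_
  rw [← Finset.mul_sum]
  have h6 : ∑ j ∈ (Finset.range n).filter (fun j => n' j ≤ n), (1/2:ℝ) ^ (j + 1) ≤ 1 := by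
    refine (Finset.sum_le_sum_of_subset_of_nonneg (Finset.filter_subset _ _)
      (fun _ _ _ => by positivity)).trans ?_
    have h7 : ∀ n : ℕ, ∑ j ∈ Finset.range n, (1/2:ℝ) ^ (j + 1) = 1 - (1/2) ^ n := by
      intro n
      induction n with
      | zero => simp
      | succ n ih => rw [Finset.sum_range_succ, ih, pow_succ]; ring
    rw [h7]
    have : (0:ℝ) ≤ (1/2) ^ n := by positivity
    linarith
  nlinarith

end Run7.h165.GI
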