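import Pool.Agent.Run7.h165.GI.Rx3

/-! # Relative compactness of the laws of the chordal interface of a rectangle: conclusion -/

set_option autoImplicit false

namespace Run7.h165.GI

open H974 H12S Finset H984P H342L H342T MeasureTheory Filter Topology
open Run7.h561.CC (Seq lawE lawE_apply)
open Pool.Agent.TH990.FU (zp)
open scoped ENNReal

/-- An affine image of a curve. -/
noncomputable def aff (o : ℂ) (M : ℝ) (c : Curve) : Curve :=
  ⟨⟨fun t => o + (M : ℂ) * c.path t, by fun_prop⟩⟩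

theorem aff_path (o : ℂ) (M : ℝ) (c : Curve) (t : unitInterval) :
    (aff o M c).path t = o + (M : ℂ) * c.path t := rfl

theorem aff_cont (o : ℂ) {M : ℝ} (hM : 0 < M) : Continuous (aff o M) := by
  have h : ∀ c c' : Curve, dist (aff o M c) (aff o M c') ≤ M * dist c c' := by
    intro c c'
    rw [Curve.dist_def, Curve.dist_def, cdist_eq c.path c'.path, mul_comm, ← div_le_iff₀ hM]
    refine le_ciInf fun φ => ?_
    rw [div_le_iff₀ hM]
    refine (cdist_le _ _ φ).trans ?_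
    rw [ContinuousMap.dist_le (by positivity)]
    intro t
    rw [rep_apply]
    show dist (o + (M : ℂ) * c.path t) (o + (M : ℂ) * c'.path (φ t)) ≤ _
    rw [dist_add_left, dist_eq_norm, ← mul_sub, norm_mul, Complex.norm_real, Real.norm_eq_abs,
      abs_of_pos hM, ← dist_eq_norm, mul_comm]
    refine mul_le_mul_of_nonneg_right ?_ hM.le
    have := ContinuousMap.dist_apply_le_dist (f := c.path) (g := rep c'.path φ) t
    rwa [rep_apply] at this
  exact (LipschitzWith.of_dist_le_mul (K := ⟨M, hM.le⟩) h).continuous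

/-- Uniform compact sets for the interfaces of a rectangle. -/
theorem chord_tight {o : ℂ} {a b : ℝ} (ha : 0 < a) (hb : 0 < b) {ε : ℝ} (hε : 0 < ε) :
    ∃ K : Set Curve, IsCompact K ∧ IsClosed K ∧ ∀ δ : ℝ, 0 < δ → (δ ≤ a ∨ δ ≤ b) → ∀ c : Finset Edg → Curve,
      (∀ F ⊆ RE 0 ⌊a / δ⌋ 0 ⌊b / δ⌋, IsChord δ o ⌊a / δ⌋ ⌊b / δ⌋ F (c F)) →
      (lawE (RE 0 ⌊a / δ⌋ 0 ⌊b / δ⌋) c : Measure Curve) Kᶜ ≤ ENNReal.ofReal ε := by
  classical
  have hok : Ok (fun _ : Edg => (1/2:ℝ)) := fun _ => ⟨by norm_num, by norm_num⟩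
  obtain ⟨K0, hK0, -, htight⟩ := chord_tight0 hε
  set M : ℝ := max a b with hM
  have hMp : 0 < M := lt_max_of_lt_left ha
  have hKc : IsCompact (closure (aff o M '' K0)) := (hK0.image (aff_cont o hMp)).closure
  refine ⟨closure (aff o M '' K0), hKc, isClosed_closure, fun δ hδ hab c hc => ?_⟩
  rw [lawE_apply _ _ isClosed_closure.measurableSet.compl]
  apply ENNReal.ofReal_le_ofReal
  have hm0 : 0 ≤ ⌊a / δ⌋ := Int.floor_nonneg.2 (by positivity)
  have hh0 : 0 ≤ ⌊b / δ⌋ := Int.floor_nonneg.2 (by positivity)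
  set n : ℕ := max ⌊a / δ⌋.toNat ⌊b / δ⌋.toNat with hn
  have hmn : ⌊a / δ⌋ ≤ n := by
    rw [hn]
    push_cast
    exact le_max_of_le_left (by omega)
  have hhn : ⌊b / δ⌋ ≤ n := by
    rw [hn]
    push_cast
    exact le_max_of_le_right (by omega)
  have hn0 : 0 < n := by
    have key : ∀ x : ℝ, δ ≤ x → 1 ≤ ⌊x / δ⌋ := by
      intro x hx
      rw [Int.le_floor]
      push_cast
      rwa [one_le_div hδ]
    rcases hab with h | h
    · have := key a h
      omega
    · have := key b h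
      omega
  have hfl : ∀ x : ℝ, 0 < x → δ * (⌊x / δ⌋.toNat : ℝ) ≤ x := by
    intro x hx
    have h1 : 0 ≤ ⌊x / δ⌋ := Int.floor_nonneg.2 (by positivity)
    have h2 : ((⌊x / δ⌋.toNat : ℕ) : ℝ) = (⌊x / δ⌋ : ℝ) := by
      have : ((⌊x / δ⌋.toNat : ℕ) : ℤ) = ⌊x / δ⌋ := Int.toNat_of_nonneg h1
      exact_mod_cast this
    rw [h2]
    have h3 := Int.floor_le (x / δ)
    rw [le_div_iff₀ hδ] at h3
    linarith
  have hnM : δ / M * n ≤ 1 := by
    rw [div_mul_eq_mul_div, div_le_one hMp, hn, hM]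
    push_cast
    rw [mul_max_of_nonneg _ _ hδ.le]
    exact max_le_max (hfl a ha) (hfl b hb)
  -- the normalised interface
  have hex : ∀ F : Finset Edg, ∃ c' : Curve, F ⊆ RE 0 ⌊a / δ⌋ 0 ⌊b / δ⌋ →
      IsChord (δ / M) 0 ⌊a / δ⌋ ⌊b / δ⌋ F c' ∧ c F = aff o M c' := by
    intro F
    by_cases hF : F ⊆ RE 0 ⌊a / δ⌋ 0 ⌊b / δ⌋
    · obtain ⟨N, h1, h2, h3⟩ := hc F hF
      refine ⟨⟨poly (fun j => zp (δ / M) 0 (orb (↑(Gr ⌊a / δ⌋ ⌊b / δ⌋ F) : Set Edg)
        (stA ⌊b / δ⌋) j).1) N⟩, fun _ => ⟨⟨N, h1, h2, rfl⟩, ?_⟩⟩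
      have h4 : (c F).path = (aff o M ⟨poly (fun j => zp (δ / M) 0
          (orb (↑(Gr ⌊a / δ⌋ ⌊b / δ⌋ F) : Set Edg) (stA ⌊b / δ⌋) j).1) N⟩).path := by
        rw [h3]
        ext t
        rw [aff_path, ← poly_aff]
        congr 2
        funext j
        apply Complex.ext
        · rw [Complex.add_re, Complex.re_ofReal_mul]
          show o.re + δ * _ = o.re + M * ((0:ℂ).re + δ / M * _)
          rw [Complex.zero_re]
          field_simp
          ring
        · rw [Complex.add_im, Complex.im_ofReal_mul]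
          show o.im + δ * _ = o.im + M * ((0:ℂ).im + δ / M * _)
          rw [Complex.zero_im]
          field_simp
          ring
      calc c F = ⟨(c F).path⟩ := rfl
        _ = _ := by rw [h4]
    · exact ⟨c F, fun h => absurd h hF⟩
  choose c' hc' using hex
  refine le_trans ?_ (htight ⌊a / δ⌋ ⌊b / δ⌋ n (δ / M) hn0 hm0 hmn hh0 hhn (by positivity) hnM c'
    (fun F hF => (hc' F hF).1))
  unfold PQ
  refine Pr_mono hok fun F hF h1 h2 => h1 ?_
  rw [(hc' F hF).2]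
  exact subset_closure ⟨_, h2, rfl⟩

/-- **Relative compactness.** -/
theorem chord_subseq {o : ℂ} {a b : ℝ} (ha : 0 < a) (hb : 0 < b) {δ : ℕ → ℝ} (pos : ∀ n, 0 < δ n)
    (lim : Tendsto δ atTop (𝓝 0)) {γ : ℕ → Finset Edg → Curve} (hγ : Chordal o a b δ γ) :
    ∃ (φ : ℕ → ℕ) (μ : ProbabilityMeasure Curve), StrictMono φ ∧
      Tendsto (fun i => law (rectSeq o a b δ pos lim) γ (φ i)) atTop (𝓝 μ) := by
  obtain ⟨N, hN⟩ := ((tendsto_order.1 lim).2 a ha).exists_forall_of_atTop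
  obtain ⟨φ, μ, hφ, hlim⟩ := t_PRK
    (fun i => law (rectSeq o a b δ pos lim) γ (i + N)) (by
      intro ε hε
      obtain ⟨K, h1, h1', h2⟩ := chord_tight (o := o) ha hb hε
      exact ⟨K, h1, h1', fun i => h2 _ (pos _) (Or.inl (hN _ (by omega)).le) _
        (fun F hF => hγ (i + N) F hF)⟩)
  exact ⟨fun i => φ i + N, μ, fun i j hij => by have := hφ hij; simp only; omega, hlim⟩

end Run7.h165.GI
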